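import Pool.Agent.Work.MP_f82ddf_nt.Red.GenDef

/-!
# Rational numbers in general position exist, and matchings in an equivalence relation
-/

open MvPolynomial

namespace Pool.Agent.Work.MP_f82ddf_nt

/-- The matrix whose nonvanishing determinant expresses general position for the pairs `μ`. -/
noncomputable def genMat (n q : ℕ)
    (μ : Fin ((n + 1) * (n + 1)) ⊕ Fin ((n + 1) * (n + 1)) → Fin q) :
    Matrix (Fin ((n + 1) * (n + 1))) (Fin ((n + 1) * (n + 1))) (MvPolynomial (Fin q) ℚ) :=
  Matrix.of fun r c => X (μ (Sum.inl r)) ^ ((finProdFinEquiv.symm c).2 : ℕ) *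
    X (μ (Sum.inr r)) ^ ((finProdFinEquiv.symm c).1 : ℕ)

theorem genMat_det_ne_zero (n q : ℕ)
    (μ : Fin ((n + 1) * (n + 1)) ⊕ Fin ((n + 1) * (n + 1)) → Fin q)
    (hμ : Function.Injective μ) : (genMat n q μ).det ≠ 0 := by
  intro h
  set u : Fin ((n + 1) * (n + 1)) → ℚ := fun r => ((r : ℕ) : ℚ) with hu
  have hui : Function.Injective u := by
    intro a b hab
    simp only [hu] at hab
    exact Fin.ext (by exact_mod_cast hab)
  set t : Fin q → ℚ := Function.extend μ (Sum.elim (fun r => u r) fun r => u r ^ (n + 1)) 0
    with ht
  have h1 : eval t (genMat n q μ).det = 0 := by rw [h, map_zero]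
  rw [RingHom.map_det] at h1
  have h2 : (eval t).mapMatrix (genMat n q μ) = Matrix.vandermonde u := by
    ext r c
    rw [RingHom.mapMatrix_apply, Matrix.map_apply, genMat, Matrix.of_apply, map_mul, map_pow,
      map_pow, eval_X, eval_X, ht, hμ.extend_apply, hμ.extend_apply, Sum.elim_inl,
      Sum.elim_inr, Matrix.vandermonde_apply, ← pow_mul, ← pow_add]
    congr 1
    have h3 := congrArg Fin.val (finProdFinEquiv.apply_symm_apply c)
    rw [finProdFinEquiv_apply_val] at h3
    exact h3
  rw [h2] at h1
  exact (Matrix.det_vandermonde_ne_zero_iff.2 hui) h1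

theorem exists_genPts (n q : ℕ) : ∃ t : Fin q → ℚ, GenPts n q t := by
  classical
  set P : MvPolynomial (Fin q) ℚ :=
    (∏ p : Fin q × Fin q, if p.1 = p.2 then 1 else (X p.1 - X p.2)) *
    ∏ μ : Fin ((n + 1) * (n + 1)) ⊕ Fin ((n + 1) * (n + 1)) → Fin q,
      if Function.Injective μ then (genMat n q μ).det else 1 with hP
  have hP0 : P ≠ 0 := by
    rw [hP]
    refine mul_ne_zero ?_ ?_
    · rw [Finset.prod_ne_zero_iff]
      rintro ⟨i, j⟩ _
      simp only
      split_ifs with hij
      · exact one_ne_zero
      · intro h
        have h1 := sub_eq_zero.1 h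
        exact hij (X_injective h1)
    · rw [Finset.prod_ne_zero_iff]
      intro μ _
      split_ifs with hμ
      · exact genMat_det_ne_zero n q μ hμ
      · exact one_ne_zero
  obtain ⟨t, ht⟩ : ∃ t : Fin q → ℚ, eval t P ≠ 0 := by
    by_contra hno
    push Not at hno
    apply hP0
    apply MvPolynomial.funext
    intro t
    rw [hno t, map_zero]
  rw [hP, map_mul, map_prod, map_prod] at ht
  obtain ⟨ht1, ht2⟩ := mul_ne_zero_iff.1 ht
  rw [Finset.prod_ne_zero_iff] at ht1 ht2
  refine ⟨t, ?_, ?_⟩
  · intro i j hij
    by_contra hne
    have h1 := ht1 (i, j) (Finset.mem_univ _)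
    simp only [if_neg hne] at h1
    rw [map_sub, eval_X, eval_X, hij, sub_self] at h1
    exact h1 rfl
  · intro μ hμ ω hω
    have h1 := ht2 μ (Finset.mem_univ _)
    rw [if_pos hμ, RingHom.map_det] at h1
    -- the determinant over `ℂ`
    have h2 : ((algebraMap ℚ ℂ).mapMatrix ((eval t).mapMatrix (genMat n q μ))).det ≠ 0 := by
      rw [← RingHom.map_det]
      exact (map_ne_zero _).2 h1
    set v : Fin ((n + 1) * (n + 1)) → ℂ := fun c =>
      ω (finProdFinEquiv.symm c).2 (finProdFinEquiv.symm c).1 with hv
    have h3 : Matrix.mulVec ((algebraMap ℚ ℂ).mapMatrix ((eval t).mapMatrix (genMat n q μ))) v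
        = 0 := by
      funext r
      rw [Matrix.mulVec, dotProduct, Pi.zero_apply, ← hω r, ← Fintype.sum_prod_type',
        ← (Equiv.prodComm (Fin (n + 1)) (Fin (n + 1))).sum_comp, ← finProdFinEquiv.symm.sum_comp]
      refine Finset.sum_congr rfl fun c _ => ?_
      rw [RingHom.mapMatrix_apply, Matrix.map_apply, RingHom.mapMatrix_apply, Matrix.map_apply,
        genMat, Matrix.of_apply, map_mul, map_pow, map_pow, eval_X, eval_X, map_mul, map_pow,
        map_pow, hv]
      simp only [Equiv.prodComm_apply, Prod.fst_swap, Prod.snd_swap, eq_ratCast]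
      ring
    have h4 := Matrix.eq_zero_of_mulVec_eq_zero h2 h3
    funext a b
    have h5 := congrFun h4 (finProdFinEquiv (b, a))
    rw [hv] at h5
    simpa using h5

/-- Pairs in classes of an equivalence relation without singletons. -/
theorem exists_matching {α : Type*} [DecidableEq α] (r : α → α → Prop)
    (hs : ∀ i j, r i j → r j i) (ht : ∀ i j k, r i j → r j k → r i k) (m : ℕ) :
    ∀ s : Finset α, (∀ i ∈ s, ∃ j ∈ s, j ≠ i ∧ r i j) → 3 * m ≤ s.card →
      ∃ μ : Fin m ⊕ Fin m → α, Function.Injective μ ∧ (∀ x, μ x ∈ s) ∧
        ∀ y, r (μ (Sum.inl y)) (μ (Sum.inr y)) := by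
  induction m with
  | zero =>
    intro s _ _
    exact ⟨fun x => (IsEmpty.false x).elim, fun x => (IsEmpty.false x).elim,
      fun x => (IsEmpty.false x).elim, fun y => y.elim0⟩
  | succ m ih =>
    intro s hcls hcard
    obtain ⟨i, hi⟩ : s.Nonempty := Finset.card_pos.1 (by omega)
    obtain ⟨j, hj, hji, hrij⟩ := hcls i hi
    -- the remaining set
    obtain ⟨s', hsub, hi', hj', hc', hcard'⟩ : ∃ s' : Finset α, s' ⊆ s ∧ i ∉ s' ∧ j ∉ s' ∧
        (∀ k ∈ s', ∃ l ∈ s', l ≠ k ∧ r k l) ∧ 3 * m ≤ s'.card := by
      by_cases hA : ∀ k ∈ (s.erase i).erase j, ∃ l ∈ (s.erase i).erase j, l ≠ k ∧ r k l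
      · refine ⟨(s.erase i).erase j, ?_, ?_, ?_, hA, ?_⟩
        · exact (Finset.erase_subset _ _).trans (Finset.erase_subset _ _)
        · simp
        · simp
        · have h1 := Finset.pred_card_le_card_erase (s := s) (a := i)
          have h2 := Finset.pred_card_le_card_erase (s := s.erase i) (a := j)
          omega
      · push Not at hA
        obtain ⟨k, hk, hkno⟩ := hA
        rw [Finset.mem_erase, Finset.mem_erase] at hk
        obtain ⟨hkj, hki, hks⟩ := hk
        have hno : ∀ l ∈ s, l ≠ i → l ≠ j → l ≠ k → ¬ r k l := by
          intro l hl h1 h2 h3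
          exact hkno l (by rw [Finset.mem_erase, Finset.mem_erase]; exact ⟨h2, h1, hl⟩) h3
        have hrik : r i k := by
          obtain ⟨l, hl, hlk, hrkl⟩ := hcls k hks
          by_cases h1 : l = i
          · rw [h1] at hrkl
            exact hs _ _ hrkl
          · by_cases h2 : l = j
            · rw [h2] at hrkl
              exact ht _ _ _ hrij (hs _ _ hrkl)
            · exact absurd hrkl (hno l hl h1 h2 hlk)
        refine ⟨((s.erase i).erase j).erase k, ?_, ?_, ?_, ?_, ?_⟩
        · exact ((Finset.erase_subset _ _).trans (Finset.erase_subset _ _)).trans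
            (Finset.erase_subset _ _)
        · simp
        · simp
        · intro k' hk'
          rw [Finset.mem_erase, Finset.mem_erase, Finset.mem_erase] at hk'
          obtain ⟨h1, h2, h3, h4⟩ := hk'
          have hnk : ¬ r k k' := hno k' h4 h3 h2 h1
          obtain ⟨l, hl, hlk, hrkl⟩ := hcls k' h4
          refine ⟨l, ?_, hlk, hrkl⟩
          rw [Finset.mem_erase, Finset.mem_erase, Finset.mem_erase]
          refine ⟨?_, ?_, ?_, hl⟩
          · intro h5
            rw [h5] at hrkl
            exact hnk (hs _ _ hrkl)
          · intro h5
            rw [h5] at hrkl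
            exact hnk (hs _ _ (ht _ _ _ hrkl (ht _ _ _ (hs _ _ hrij) hrik)))
          · intro h5
            rw [h5] at hrkl
            exact hnk (hs _ _ (ht _ _ _ hrkl hrik))
        · have h1 := Finset.pred_card_le_card_erase (s := s) (a := i)
          have h2 := Finset.pred_card_le_card_erase (s := s.erase i) (a := j)
          have h3 := Finset.pred_card_le_card_erase (s := (s.erase i).erase j) (a := k)
          omega
    obtain ⟨μ, hμi, hμs, hμr⟩ := ih s' hc' hcard'
    have hne1 : ∀ x, μ x ≠ i := fun x h => hi' (h ▸ hμs x)
    have hne2 : ∀ x, μ x ≠ j := fun x h => hj' (h ▸ hμs x)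
    refine ⟨Sum.elim (Fin.cons i fun y => μ (Sum.inl y)) (Fin.cons j fun y => μ (Sum.inr y)),
      ?_, ?_, ?_⟩
    · rintro (a | a) (c | c) h
      · simp only [Sum.elim_inl] at h
        induction a using Fin.cases with
        | zero =>
          induction c using Fin.cases with
          | zero => rfl
          | succ c =>
            rw [Fin.cons_zero, Fin.cons_succ] at h
            exact absurd h.symm (hne1 _)
        | succ a =>
          induction c using Fin.cases with
          | zero =>
            rw [Fin.cons_zero, Fin.cons_succ] at h
            exact absurd h (hne1 _)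
          | succ c =>
            rw [Fin.cons_succ, Fin.cons_succ] at h
            have := hμi h
            rw [Sum.inl.inj this]
      · simp only [Sum.elim_inl, Sum.elim_inr] at h
        exfalso
        induction a using Fin.cases with
        | zero =>
          induction c using Fin.cases with
          | zero =>
            rw [Fin.cons_zero, Fin.cons_zero] at h
            exact hji h.symm
          | succ c =>
            rw [Fin.cons_zero, Fin.cons_succ] at h
            exact absurd h.symm (hne1 _)
        | succ a =>
          induction c using Fin.cases with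
          | zero =>
            rw [Fin.cons_zero, Fin.cons_succ] at h
            exact absurd h (hne2 _)
          | succ c =>
            rw [Fin.cons_succ, Fin.cons_succ] at h
            have := hμi h
            simp at this
      · simp only [Sum.elim_inl, Sum.elim_inr] at h
        exfalso
        induction a using Fin.cases with
        | zero =>
          induction c using Fin.cases with
          | zero =>
            rw [Fin.cons_zero, Fin.cons_zero] at h
            exact hji h
          | succ c =>
            rw [Fin.cons_zero, Fin.cons_succ] at h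
            exact absurd h.symm (hne2 _)
        | succ a =>
          induction c using Fin.cases with
          | zero =>
            rw [Fin.cons_zero, Fin.cons_succ] at h
            exact absurd h (hne1 _)
          | succ c =>
            rw [Fin.cons_succ, Fin.cons_succ] at h
            have := hμi h
            simp at this
      · simp only [Sum.elim_inr] at h
        induction a using Fin.cases with
        | zero =>
          induction c using Fin.cases with
          | zero => rfl
          | succ c =>
            rw [Fin.cons_zero, Fin.cons_succ] at h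
            exact absurd h.symm (hne2 _)
        | succ a =>
          induction c using Fin.cases with
          | zero =>
            rw [Fin.cons_zero, Fin.cons_succ] at h
            exact absurd h (hne2 _)
          | succ c =>
            rw [Fin.cons_succ, Fin.cons_succ] at h
            have := hμi h
            rw [Sum.inr.inj this]
    · rintro (a | a)
      · simp only [Sum.elim_inl]
        induction a using Fin.cases with
        | zero => simpa using hi
        | succ a => simpa using hsub (hμs _)
      · simp only [Sum.elim_inr]
        induction a using Fin.cases with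
        | zero => simpa using hj
        | succ a => simpa using hsub (hμs _)
    · intro a
      simp only [Sum.elim_inl, Sum.elim_inr]
      induction a using Fin.cases with
      | zero => simpa using hrij
      | succ a => simpa using hμr a

end Pool.Agent.Work.MP_f82ddf_nt
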