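import Pool.Agent.Work.MP_f82ddf_nt.Brody.Relation
import Pool.Agent.Work.MP_f82ddf_nt.Red.GenPts

/-!
# Meromorphic curves satisfying a relation between high powers of linear forms
-/

open Topology Filter Metric Set

namespace Pool.Agent.Work.MP_f82ddf_nt

/-- The function `u` is generically a constant multiple of `v`. -/
def Prop2 (u v : ℂ → ℂ) : Prop := ∃ a : ℂ, ∀ z₀, ∀ᶠ z in 𝓝[≠] z₀, u z = a * v z

theorem Prop2.refl (u : ℂ → ℂ) : Prop2 u u :=
  ⟨1, fun _ => Eventually.of_forall fun _ => (one_mul _).symm⟩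

theorem Prop2.symm {u v : ℂ → ℂ} (hu : ∀ z₀, ∀ᶠ z in 𝓝[≠] z₀, u z ≠ 0) (h : Prop2 u v) :
    Prop2 v u := by
  obtain ⟨a, ha⟩ := h
  have ha0 : a ≠ 0 := by
    rintro rfl
    obtain ⟨z, hz⟩ := ((ha 0).and (hu 0)).exists
    exact hz.2 (by rw [hz.1, zero_mul])
  refine ⟨a⁻¹, fun z₀ => ?_⟩
  filter_upwards [ha z₀] with z hz
  rw [hz, ← mul_assoc, inv_mul_cancel₀ ha0, one_mul]

theorem Prop2.trans {u v w : ℂ → ℂ} (h : Prop2 u v) (h' : Prop2 v w) : Prop2 u w := by
  obtain ⟨a, ha⟩ := h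
  obtain ⟨b, hb⟩ := h'
  refine ⟨a * b, fun z₀ => ?_⟩
  filter_upwards [ha z₀, hb z₀] with z h1 h2
  rw [h1, h2, mul_assoc]

/-- In a relation between few high powers each function is proportional to another one. -/
theorem exists_partner {ι : Type*} [Fintype ι] {N k : ℕ} (hN : Fintype.card ι ≤ N)
    (hk : N * (N - 2) < k) (w : ι → ℂ → ℂ) (hw : ∀ i z, MeromorphicAt (w i) z)
    (hne : ∀ i z₀, ∀ᶠ z in 𝓝[≠] z₀, w i z ≠ 0) (c : ι → ℂ)
    (hrel : ∀ z₀, ∀ᶠ z in 𝓝[≠] z₀, ∑ i, c i * w i z ^ k = 0) (i : ι) (hi : c i ≠ 0) :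
    ∃ j, j ≠ i ∧ c j ≠ 0 ∧ Prop2 (w i) (w j) := by
  classical
  by_contra hcon
  push Not at hcon
  let st : Setoid ι :=
    { r := fun i j => Prop2 (w i) (w j)
      iseqv := ⟨fun i => Prop2.refl _, fun {i j} h => h.symm (hne i), fun h h' => h.trans h'⟩ }
  obtain ⟨φ, hφ⟩ := Countable.exists_injective_nat (Quotient st)
  have h1 := level_sums hN hk w hw hne (fun i => ((φ (Quotient.mk st i) : ℕ) : ℤ))
    (by
      intro i j hij
      have : Quotient.mk st i = Quotient.mk st j := Quotient.sound hij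
      simp only [this]) (Fintype.card ι) c (Finset.card_le_univ _) hrel
    ((φ (Quotient.mk st i) : ℕ) : ℤ) 0
  obtain ⟨z, hz1, hz2⟩ := (h1.and (hne i 0)).exists
  rw [Finset.sum_eq_single i] at hz1
  · exact (mul_ne_zero hi (pow_ne_zero _ hz2)) hz1
  · intro j hj hji
    simp only [Finset.mem_filter, Finset.mem_univ, true_and] at hj
    have h2 : Quotient.mk st j = Quotient.mk st i := hφ (by exact_mod_cast hj)
    have h3 : Prop2 (w j) (w i) := Quotient.exact h2
    have h4 := h3.symm (hne j)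
    by_cases hcj : c j = 0
    · rw [hcj, zero_mul]
    · exact absurd h4 (hcon j hji hcj)
  · intro h
    exact absurd (by simp) h

theorem Prop2.of_pow {e : ℕ} (he : 1 ≤ e) {u v : ℂ → ℂ} (hu : ∀ z, MeromorphicAt u z)
    (hv : ∀ z, MeromorphicAt v z) (hu0 : ∀ z₀, ∀ᶠ z in 𝓝[≠] z₀, u z ≠ 0)
    (hv0 : ∀ z₀, ∀ᶠ z in 𝓝[≠] z₀, v z ≠ 0)
    (h : Prop2 (fun z => u z ^ e) (fun z => v z ^ e)) : Prop2 u v := by
  obtain ⟨a, ha⟩ := h
  exact prop_of_pow he hu hv hu0 hv0 ha

/-- The values of a polynomial of degree at most `n` at distinct points. -/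
theorem card_zeros_le {n q : ℕ} (t : Fin q → ℚ) (ht : Function.Injective t)
    (x : Fin (n + 1) → ℂ) (hx : x ≠ 0) (s : Finset (Fin q))
    (hs : ∀ j ∈ s, ∑ i, x i * (t j : ℂ) ^ (i : ℕ) = 0) : s.card ≤ n := by
  classical
  set p : Polynomial ℂ := ∑ i : Fin (n + 1), Polynomial.C (x i) * Polynomial.X ^ (i : ℕ) with hp
  have hcoef : ∀ i : Fin (n + 1), p.coeff i = x i := by
    intro i
    rw [hp, Polynomial.finsetSum_coeff, Finset.sum_eq_single i]
    · simp
    · intro j _ hj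
      rw [Polynomial.coeff_C_mul_X_pow, if_neg]
      intro h
      exact hj (Fin.ext h.symm)
    · intro h
      exact absurd (Finset.mem_univ _) h
  have hp0 : p ≠ 0 := by
    intro h
    apply hx
    funext i
    rw [← hcoef i, h]
    simp
  have hdeg : p.natDegree ≤ n := by
    rw [hp]
    refine Polynomial.natDegree_sum_le_of_forall_le _ _ fun i _ => ?_
    exact (Polynomial.natDegree_C_mul_X_pow_le _ _).trans (by omega)
  have h1 : s.image (fun j => (t j : ℂ)) ⊆ p.roots.toFinset := by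
    intro y hy
    obtain ⟨j, hj, rfl⟩ := Finset.mem_image.1 hy
    rw [Multiset.mem_toFinset, Polynomial.mem_roots hp0, Polynomial.IsRoot, hp,
      Polynomial.eval_finsetSum]
    simpa using hs j hj
  have h2 : (s.image (fun j => (t j : ℂ))).card = s.card := by
    apply Finset.card_image_of_injective
    intro a b hab
    exact ht (Rat.cast_injective hab)
  calc s.card = (s.image (fun j => (t j : ℂ))).card := h2.symm
    _ ≤ p.roots.toFinset.card := Finset.card_le_card h1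
    _ ≤ p.roots.card := Multiset.toFinset_card_le _
    _ ≤ p.natDegree := p.card_roots'
    _ ≤ n := hdeg

/-- A meromorphic curve on which a relation between few high powers holds, many of which are
powers of linear forms in general position, has a constant direction. -/
theorem constant_direction {n q N₀ e k : ℕ} (he : 1 ≤ e) (t : Fin q → ℚ) (ht : GenPts n q t)
    (hk : (q + N₀) * (q + N₀ - 2) < k) (a : Fin q → ℂ)
    (ha : n + N₀ + 3 * ((n + 1) * (n + 1)) ≤ (Finset.univ.filter fun j => a j ≠ 0).card)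
    (u : Fin (n + 1) → ℂ → ℂ) (hu : ∀ i z, MeromorphicAt (u i) z)
    (R : Fin N₀ → ℂ → ℂ) (hR : ∀ i z, MeromorphicAt (R i) z)
    (hrel : ∀ z₀, ∀ᶠ z in 𝓝[≠] z₀,
      ∑ j, a j * (∑ i, u i z * (t j : ℂ) ^ (i : ℕ)) ^ (e * k) + ∑ i, R i z ^ k = 0) :
    ∃ v : Fin (n + 1) → ℂ, v ≠ 0 ∧
      ∀ z₀, ∀ᶠ z in 𝓝[≠] z₀, ∀ i j, u i z * v j = u j z * v i := by
  classical
  by_contra hcon0
  have hcon : ∀ v : Fin (n + 1) → ℂ, v ≠ 0 →
      ∃ z₀, ¬ ∀ᶠ z in 𝓝[≠] z₀, ∀ i j, u i z * v j = u j z * v i := by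
    intro v hv
    by_contra h
    push Not at h
    exact hcon0 ⟨v, hv, h⟩
  -- the linear forms
  let U : Fin q → ℂ → ℂ := fun j z => ∑ i, u i z * (t j : ℂ) ^ (i : ℕ)
  have hUm : ∀ j z, MeromorphicAt (U j) z := by
    intro j z
    apply MeromorphicAt.fun_sum
    intro i _
    exact (hu i z).mul (MeromorphicAt.const _ z)
  -- not all coordinates vanish
  have hu0 : ∃ i, ∀ z₀, ∀ᶠ z in 𝓝[≠] z₀, u i z ≠ 0 := by
    by_contra h
    push Not at h
    obtain ⟨z₀, hz₀⟩ := hcon (Pi.single 0 1) (by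
      intro h0
      have := congrFun h0 0
      simp at this)
    apply hz₀
    have h1 : ∀ i, ∀ᶠ z in 𝓝[≠] z₀, u i z = 0 := by
      intro i
      obtain ⟨z₁, hz₁⟩ := h i
      rcases (hu i z₁).eventually_eq_zero_or_eventually_ne_zero with h2 | h2
      · exact mero_zero (hu i) h2 z₀
      · exact absurd h2 hz₁
    filter_upwards [eventually_all.2 h1] with z hz i j
    rw [hz i, hz j, zero_mul, zero_mul]
  -- the combined family
  let w : Fin q ⊕ Fin N₀ → ℂ → ℂ := Sum.elim (fun j z => U j z ^ e) (fun i z => R i z)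
  let c : Fin q ⊕ Fin N₀ → ℂ := Sum.elim a (fun _ => 1)
  have hwm : ∀ x z, MeromorphicAt (w x) z := by
    rintro (j | i) z
    · exact (hUm j z).pow e
    · exact hR i z
  set T : Finset (Fin q ⊕ Fin N₀) :=
    Finset.univ.filter fun x => ∀ᶠ z in 𝓝[≠] (0 : ℂ), w x z ≠ 0 with hT
  have hmemT : ∀ x, x ∈ T → ∀ z₀, ∀ᶠ z in 𝓝[≠] z₀, w x z ≠ 0 := by
    intro x hx
    exact mero_ne (hwm x) ((Finset.mem_filter.1 hx).2).frequently
  have hnotT : ∀ x, x ∉ T → ∀ z₀, ∀ᶠ z in 𝓝[≠] z₀, w x z = 0 := by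
    intro x hx
    rcases (hwm x 0).eventually_eq_zero_or_eventually_ne_zero with h1 | h1
    · exact mero_zero (hwm x) h1
    · exact absurd (Finset.mem_filter.2 ⟨Finset.mem_univ x, h1⟩) hx
  have hk0 : 0 < k := by omega
  have hTrel : ∀ z₀, ∀ᶠ z in 𝓝[≠] z₀, ∑ x : T, c x * w x z ^ k = 0 := by
    intro z₀
    have h1 : ∀ x, ∀ᶠ z in 𝓝[≠] z₀, x ∉ T → w x z = 0 := by
      intro x
      by_cases hx : x ∈ T
      · exact Eventually.of_forall fun z h => absurd hx h
      · exact (hnotT x hx z₀).mono fun z hz _ => hz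
    filter_upwards [hrel z₀, eventually_all.2 h1] with z hz1 hz2
    rw [Finset.sum_coe_sort T (fun x => c x * w x z ^ k)]
    rw [Finset.sum_subset (Finset.subset_univ T), Fintype.sum_sum_type]
    · rw [← hz1]
      congr 1
      · refine Finset.sum_congr rfl fun j _ => ?_
        show a j * (U j z ^ e) ^ k = _
        rw [← pow_mul]
      · refine Finset.sum_congr rfl fun i _ => ?_
        show 1 * R i z ^ k = _
        rw [one_mul]
    · intro x _ hx
      rw [hz2 x hx, zero_pow hk0.ne', mul_zero]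
  have hcard : Fintype.card T ≤ q + N₀ := by
    rw [Fintype.card_coe]
    refine (Finset.card_le_univ T).trans ?_
    rw [Fintype.card_sum, Fintype.card_fin, Fintype.card_fin]
  have hpart : ∀ x ∈ T, c x ≠ 0 → ∃ y ∈ T, y ≠ x ∧ c y ≠ 0 ∧ Prop2 (w x) (w y) := by
    intro x hx hcx
    obtain ⟨y, hy1, hy2, hy3⟩ := exists_partner hcard hk (fun x : T => w x)
      (fun x z => hwm x z) (fun x => hmemT x x.2) (fun x : T => c x) hTrel ⟨x, hx⟩ hcx
    exact ⟨y, y.2, fun h => hy1 (Subtype.ext h), hy2, hy3⟩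
  -- linear forms which vanish
  have hU0 : ∀ j, Sum.inl j ∈ T → ∀ z₀, ∀ᶠ z in 𝓝[≠] z₀, U j z ≠ 0 := by
    intro j hj z₀
    filter_upwards [hmemT _ hj z₀] with z hz h0
    apply hz
    show U j z ^ e = 0
    rw [h0, zero_pow (by omega)]
  have hUz : ∀ j, Sum.inl j ∉ T → ∀ z₀, ∀ᶠ z in 𝓝[≠] z₀, U j z = 0 := by
    intro j hj z₀
    filter_upwards [hnotT _ hj z₀] with z hz
    exact pow_eq_zero_iff (by omega) |>.1 hz
  have hvan : (Finset.univ.filter fun j : Fin q => Sum.inl j ∉ T).card ≤ n := by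
    obtain ⟨i, hi⟩ := hu0
    have h1 : ∀ᶠ z in 𝓝[≠] (0 : ℂ), ∀ j : Fin q, Sum.inl j ∉ T → U j z = 0 := by
      refine eventually_all.2 fun j => ?_
      by_cases hj : Sum.inl j ∈ T
      · exact Eventually.of_forall fun z h => absurd hj h
      · exact (hUz j hj 0).mono fun z hz _ => hz
    obtain ⟨z, hz1, hz2⟩ := (h1.and (hi 0)).exists
    refine card_zeros_le t ht.1 (fun i => u i z) (fun h => hz2 (congrFun h i)) _ ?_
    intro j hj
    exact hz1 j (Finset.mem_filter.1 hj).2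
  set J : Finset (Fin q) := Finset.univ.filter fun j => a j ≠ 0 ∧ Sum.inl j ∈ T with hJ
  have hJcard : N₀ + 3 * ((n + 1) * (n + 1)) ≤ J.card := by
    have h1 : (Finset.univ.filter fun j => a j ≠ 0) ⊆
        J ∪ (Finset.univ.filter fun j : Fin q => Sum.inl j ∉ T) := by
      intro j hj
      simp only [Finset.mem_filter, Finset.mem_univ, true_and] at hj
      simp only [Finset.mem_union, hJ, Finset.mem_filter, Finset.mem_univ, true_and]
      by_cases h : Sum.inl j ∈ T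
      · exact Or.inl ⟨hj, h⟩
      · exact Or.inr h
    have h2 := (Finset.card_le_card h1).trans (Finset.card_union_le _ _)
    omega
  let r : Fin q → Fin q → Prop := fun j j' => Sum.inl j ∈ T ∧ Sum.inl j' ∈ T ∧ Prop2 (U j) (U j')
  have hrs : ∀ j j', r j j' → r j' j := fun j j' h => ⟨h.2.1, h.1, h.2.2.symm (hU0 j h.1)⟩
  have hrt : ∀ j j' j'', r j j' → r j' j'' → r j j'' := fun j j' j'' h h' =>
    ⟨h.1, h'.2.1, h.2.2.trans h'.2.2⟩
  set J₁ : Finset (Fin q) := J.filter fun j => ∃ j' ∈ J, j' ≠ j ∧ r j j' with hJ₁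
  have hJ₁card : 3 * ((n + 1) * (n + 1)) ≤ J₁.card := by
    -- the others have partners among the remaining functions
    have h1 : ∀ j ∈ J \ J₁, ∃ i : Fin N₀, Sum.inr i ∈ T ∧ Prop2 (w (Sum.inl j)) (w (Sum.inr i)) := by
      intro j hj
      obtain ⟨hjJ, hjJ₁⟩ := Finset.mem_sdiff.1 hj
      have hjJ' := (Finset.mem_filter.1 hjJ).2
      obtain ⟨y, hyT, hyne, hcy, hpy⟩ := hpart (Sum.inl j) hjJ'.2 hjJ'.1
      rcases y with j' | i
      · exfalso
        apply hjJ₁
        refine Finset.mem_filter.2 ⟨hjJ, j', ?_, fun h => hyne (by rw [h]), hjJ'.2, hyT, ?_⟩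
        · exact Finset.mem_filter.2 ⟨Finset.mem_univ _, hcy, hyT⟩
        · exact Prop2.of_pow he (hUm j) (hUm j') (hU0 j hjJ'.2) (hU0 j' hyT) hpy
      · exact ⟨i, hyT, hpy⟩
    choose φ hφ using h1
    have h2 : (J \ J₁).card ≤ N₀ := by
      have h3 : (J \ J₁).attach.card ≤ (Finset.univ : Finset (Fin N₀)).card := by
        refine Finset.card_le_card_of_injOn (fun x => φ x.1 x.2)
          (fun j _ => Finset.mem_coe.2 (Finset.mem_univ _)) ?_
        rintro ⟨j, hj0⟩ - ⟨j', hj0'⟩ - hjj'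
        simp only at hjj'
        by_contra hne0
        have hne : j ≠ j' := fun h => hne0 (Subtype.ext h)
        have hJj := (Finset.mem_sdiff.1 hj0).1
        have hJj' := (Finset.mem_sdiff.1 hj0').1
        have hTj := (Finset.mem_filter.1 hJj).2.2
        have hTj' := (Finset.mem_filter.1 hJj').2.2
        apply (Finset.mem_sdiff.1 hj0).2
        refine Finset.mem_filter.2 ⟨hJj, j', hJj', fun h => hne h.symm, hTj, hTj', ?_⟩
        refine Prop2.of_pow he (hUm j) (hUm j') (hU0 j hTj) (hU0 j' hTj') ?_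
        have e1 := (hφ j hj0).2
        have e2 := (hφ j' hj0').2
        rw [← hjj'] at e2
        exact e1.trans (e2.symm (hmemT _ hTj'))
      rw [Finset.card_attach] at h3
      simpa using h3
    have h4 : (J \ J₁).card + J₁.card = J.card :=
      Finset.card_sdiff_add_card_eq_card (Finset.filter_subset _ _)
    omega
  obtain ⟨μ, hμ1, hμ2, hμ3⟩ := exists_matching r hrs hrt ((n + 1) * (n + 1)) J₁ (by
    intro j hj
    obtain ⟨hjJ, j', hj'J, hne, hr⟩ := Finset.mem_filter.1 hj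
    exact ⟨j', Finset.mem_filter.2 ⟨hj'J, j, hjJ, fun h => hne h.symm, hrs _ _ hr⟩, hne, hr⟩)
    hJ₁card
  -- the proportionality relations
  choose α hα using fun y => (hμ3 y).2.2
  have hev : ∀ z₀, ∀ᶠ z in 𝓝[≠] z₀, ∀ y, U (μ (Sum.inl y)) z = α y * U (μ (Sum.inr y)) z :=
    fun z₀ => eventually_all.2 fun y => hα y z₀
  obtain ⟨i, hi⟩ := hu0
  obtain ⟨z₁, hz₁, hiz₁⟩ := ((hev 0).and (hi 0)).exists
  obtain ⟨z₀, hz₀⟩ := hcon (fun i => u i z₁) (fun h => hiz₁ (congrFun h i))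
  obtain ⟨z₂, hz₂, hne⟩ := ((hev z₀).and_frequently (not_eventually.1 hz₀)).exists
  apply hne
  have hω := ht.2 μ hμ1 (fun p p' => u p z₁ * u p' z₂ - u p' z₁ * u p z₂) (by
    intro y
    have h1 := hz₁ y
    have h2 := hz₂ y
    have h3 : ∑ p, ∑ p', (u p z₁ * u p' z₂ - u p' z₁ * u p z₂) *
        ((t (μ (Sum.inl y)) : ℂ) ^ (p : ℕ) * (t (μ (Sum.inr y)) : ℂ) ^ (p' : ℕ)) =
        U (μ (Sum.inl y)) z₁ * U (μ (Sum.inr y)) z₂ -
          U (μ (Sum.inr y)) z₁ * U (μ (Sum.inl y)) z₂ := by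
      show _ = (∑ i, u i z₁ * (t (μ (Sum.inl y)) : ℂ) ^ (i : ℕ)) *
          (∑ i, u i z₂ * (t (μ (Sum.inr y)) : ℂ) ^ (i : ℕ)) -
          (∑ i, u i z₁ * (t (μ (Sum.inr y)) : ℂ) ^ (i : ℕ)) *
          (∑ i, u i z₂ * (t (μ (Sum.inl y)) : ℂ) ^ (i : ℕ))
      rw [Finset.sum_mul_sum, Finset.sum_mul_sum]
      rw [Finset.sum_comm (f := fun i j => u i z₁ * (t (μ (Sum.inr y)) : ℂ) ^ (i : ℕ) *
        (u j z₂ * (t (μ (Sum.inl y)) : ℂ) ^ (j : ℕ)))]
      rw [← Finset.sum_sub_distrib]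
      refine Finset.sum_congr rfl fun p _ => ?_
      rw [← Finset.sum_sub_distrib]
      refine Finset.sum_congr rfl fun p' _ => ?_
      ring
    rw [h3, h1, h2]
    ring)
  intro p p'
  have := congrFun (congrFun hω p) p'
  simp only [Pi.zero_apply] at this
  linear_combination -this

end Pool.Agent.Work.MP_f82ddf_nt
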