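import Pool.Agent.Work.MP_f82ddf_nt.Brody.WaringLine
import Pool.Agent.Work.MP_f82ddf_nt.Red.Dir

/-!
# Entire curves in hypersurfaces given by many high powers
-/

open Topology Filter Metric Set MvPolynomial
open scoped LinearAlgebra.Projectivization

namespace Pool.Agent.Work.MP_f82ddf_nt

variable {n : ℕ}

/-- There is a coordinate which does not vanish generically along the curve. -/
theorem exists_coord {f : ℂ → PSpace ℂ n} (hf : HolomorphicOn f univ) :
    ∃ i₀, ∀ z₀, ∀ᶠ z in 𝓝[≠] z₀, crd f i₀ i₀ z ≠ 0 := by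
  obtain ⟨i₀, hi₀⟩ : ∃ i, (f 0).rep i ≠ 0 := by
    by_contra hcon
    push Not at hcon
    exact (f 0).rep_nonzero (funext hcon)
  refine ⟨i₀, mero_ne (fun z => crd_mero hf i₀ i₀ z) (z₁ := 0) ?_⟩
  apply Eventually.frequently
  obtain ⟨g, hg⟩ := hf 0 (mem_univ 0)
  have hg' : IsLift f g 0 := hg
  have h1 := crd_lift hg' i₀ i₀
  have h2 : g 0 i₀ ≠ 0 := by
    intro h0
    have h3 := h1.self_of_nhds
    rw [h0, div_zero] at h3
    unfold crd at h3
    rw [div_self hi₀] at h3
    exact one_ne_zero h3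
  have h3 : ContinuousAt (fun z => g z i₀) 0 := ((analyticAt_pi_iff.1 hg'.1) i₀).continuousAt
  apply nhdsWithin_le_nhds
  filter_upwards [h1, h3.eventually_ne h2] with z h4 h5
  rw [h4, div_self h5]
  exact one_ne_zero

theorem crd_self {f : ℂ → PSpace ℂ n} {i₀ : Fin (n + 1)} {z : ℂ} (h : crd f i₀ i₀ z ≠ 0) :
    (f z).rep i₀ ≠ 0 ∧ crd f i₀ i₀ z = 1 := by
  have h1 : (f z).rep i₀ ≠ 0 := by
    intro h0
    apply h
    unfold crd
    rw [h0, div_zero]
  exact ⟨h1, div_self h1⟩

/-- A curve with a constant direction is constant. -/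
theorem const_of_direction {f : ℂ → PSpace ℂ n} (hf : HolomorphicOn f univ) {i₀ : Fin (n + 1)}
    (hi₀ : ∀ z₀, ∀ᶠ z in 𝓝[≠] z₀, crd f i₀ i₀ z ≠ 0) (v : Fin (n + 1) → ℂ) (hv : v ≠ 0)
    (h : ∀ z₀, ∀ᶠ z in 𝓝[≠] z₀, ∀ i j, crd f i₀ i z * v j = crd f i₀ j z * v i) (z w : ℂ) :
    f z = f w := by
  classical
  have key : ∀ z, f z = Projectivization.mk ℂ v hv := by
    intro z
    have h1 : ∀ i j, (f z).rep i * v j = (f z).rep j * v i := by
      intro i j
      have h2 := rel_everywhere hf hi₀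
        (fun l => (if l = i then v j else 0) - (if l = j then v i else 0)) (by
          intro z₀
          filter_upwards [h z₀] with z hz
          simp only [sub_mul, ite_mul, zero_mul, Finset.sum_sub_distrib, Finset.sum_ite_eq',
            Finset.mem_univ, if_true]
          linear_combination hz i j) z
      simp only [sub_mul, ite_mul, zero_mul, Finset.sum_sub_distrib, Finset.sum_ite_eq',
        Finset.mem_univ, if_true] at h2
      linear_combination h2
    obtain ⟨j, hj⟩ : ∃ j, v j ≠ 0 := by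
      by_contra hcon
      push Not at hcon
      exact hv (funext hcon)
    rw [← (f z).mk_rep, Projectivization.mk_eq_mk_iff']
    refine ⟨(f z).rep j / v j, ?_⟩
    funext i
    show (f z).rep j / v j * v i = (f z).rep i
    have := h1 i j
    field_simp
    linear_combination -this
  rw [key z, key w]

/-- Values of a form at the affine coordinates. -/
theorem eval_crd (f : ℂ → PSpace ℂ n) (i₀ : Fin (n + 1)) {P : MvPolynomial (Fin (n + 1)) ℂ}
    {d : ℕ} (hP : P.IsHomogeneous d) (z : ℂ) :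
    eval (fun i => crd f i₀ i z) P = ((f z).rep i₀)⁻¹ ^ d * eval (f z).rep P := by
  have h1 : (fun i => crd f i₀ i z) = ((f z).rep i₀)⁻¹ • (f z).rep := by
    funext i
    show (f z).rep i / (f z).rep i₀ = ((f z).rep i₀)⁻¹ * (f z).rep i
    rw [div_eq_mul_inv, mul_comm]
  rw [h1]
  have h2 := eval₂_smul_hom hP (RingHom.id ℂ) (f z).rep ((f z).rep i₀)⁻¹
  rw [eval₂_id, eval₂_id] at h2
  exact h2

theorem eval_crd_mero {f : ℂ → PSpace ℂ n} (hf : HolomorphicOn f univ) (i₀ : Fin (n + 1))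
    (P : MvPolynomial (Fin (n + 1)) ℂ) (z : ℂ) :
    MeromorphicAt (fun z => eval (fun i => crd f i₀ i z) P) z := by
  simp only [eval_eq]
  apply MeromorphicAt.fun_sum
  intro m _
  refine (MeromorphicAt.const _ z).mul ?_
  apply MeromorphicAt.fun_prod
  intro i _
  exact (crd_mero hf i₀ i z).pow _

/-- A form which vanishes generically along the curve vanishes along the curve. -/
theorem form_everywhere {f : ℂ → PSpace ℂ n} (hf : HolomorphicOn f univ)
    {P : MvPolynomial (Fin (n + 1)) ℂ} {d : ℕ} (hP : P.IsHomogeneous d)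
    (h : ∀ z₀, ∀ᶠ z in 𝓝[≠] z₀, eval (f z).rep P = 0) (z₀ : ℂ) : eval (f z₀).rep P = 0 := by
  obtain ⟨g, hg⟩ := hf z₀ (mem_univ z₀)
  have hg' : IsLift f g z₀ := hg
  have h1 : ∀ᶠ z in 𝓝[≠] z₀, eval (g z) P = 0 := by
    filter_upwards [h z₀, nhdsWithin_le_nhds hg'.2] with z a b
    obtain ⟨h1, h2⟩ := b
    rw [h2] at a
    have := (eval₂_rep_iff hP (RingHom.id ℂ) (g z) h1)
    rw [eval₂_id, eval₂_id] at this
    exact this.1 a
  have h3 : AnalyticAt ℂ (fun z => eval (g z) P) z₀ := by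
    simp only [eval_eq]
    apply Finset.analyticAt_fun_sum
    intro m _
    refine analyticAt_const.mul ?_
    apply Finset.analyticAt_fun_prod
    intro i _
    exact ((analyticAt_pi_iff.1 hg'.1) i).pow _
  have h2 := (eq_of_punctured h3 analyticAt_const h1).self_of_nhds
  rw [hg'.eq]
  have := (eval₂_rep_iff hP (RingHom.id ℂ) (g z₀) hg'.ne)
  rw [eval₂_id, eval₂_id] at this
  exact this.2 h2

/-- Entire curves in a hypersurface given by many high powers are constant. -/
theorem curve_const {q N₀ e k : ℕ} (he : 1 ≤ e) (t : Fin q → ℚ) (ht : GenPts n q t)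
    (hk : (q + N₀) * (q + N₀ - 2) < k) (a : Fin q → ℂ)
    (ha : n + N₀ + 3 * ((n + 1) * (n + 1)) ≤ (Finset.univ.filter fun j => a j ≠ 0).card)
    (P : Fin N₀ → MvPolynomial (Fin (n + 1)) ℂ) (hP : ∀ i, (P i).IsHomogeneous e)
    {f : ℂ → PSpace ℂ n} (hf : HolomorphicOn f univ)
    (hrel : ∀ z, ∑ j, a j * (∑ i, (f z).rep i * (t j : ℂ) ^ (i : ℕ)) ^ (e * k) +
      ∑ i, eval (f z).rep (P i) ^ k = 0) (z w : ℂ) : f z = f w := by
  obtain ⟨i₀, hi₀⟩ := exists_coord hf
  obtain ⟨v, hv, h⟩ := constant_direction he t ht hk a ha (crd f i₀) (fun i z => crd_mero hf i₀ i z)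
    (fun i z => eval (fun i => crd f i₀ i z) (P i)) (fun i z => eval_crd_mero hf i₀ (P i) z) (by
      intro z₀
      refine Eventually.of_forall fun z => ?_
      have h1 := congrArg (fun y => ((f z).rep i₀)⁻¹ ^ (e * k) * y) (hrel z)
      simp only [mul_zero, mul_add, Finset.mul_sum] at h1
      rw [← h1]
      congr 1
      · refine Finset.sum_congr rfl fun j _ => ?_
        have : ∑ i, crd f i₀ i z * (t j : ℂ) ^ (i : ℕ) =
            ((f z).rep i₀)⁻¹ * ∑ i, (f z).rep i * (t j : ℂ) ^ (i : ℕ) := by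
          rw [Finset.mul_sum]
          refine Finset.sum_congr rfl fun i _ => ?_
          unfold crd
          rw [div_eq_mul_inv]
          ring
        rw [this, mul_pow]
        ring
      · refine Finset.sum_congr rfl fun i _ => ?_
        rw [eval_crd f i₀ (hP i), mul_pow, ← pow_mul])
  exact const_of_direction hf hi₀ v hv h z w

/-- Nonconstant entire curves in the hypersurface `∑_j (∑_s M_s(x) τ_j^s)^k = 0`, where
`M_s` are the products of the variables with the forms `m_c`, lie in the base locus. -/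
theorem curve_base {D C N k e : ℕ} (τ : Fin N → ℚ) (hτ : GenPts D N τ)
    (hN : D + 3 * ((D + 1) * (D + 1)) ≤ N) (hk : N * (N - 2) < k)
    (ρ : Fin (D + 1) ≃ Fin C × Fin (n + 1)) (m : Fin C → MvPolynomial (Fin (n + 1)) ℂ)
    (hm : ∀ c, (m c).IsHomogeneous e) {f : ℂ → PSpace ℂ n} (hf : HolomorphicOn f univ)
    (hrel : ∀ z, ∑ j, (∑ s, ((f z).rep (ρ s).2 * eval (f z).rep (m (ρ s).1)) *
      (τ j : ℂ) ^ (s : ℕ)) ^ k = 0) (hne : ∃ z w, f z ≠ f w) (c : Fin C) (z : ℂ) :
    eval (f z).rep (m c) = 0 := by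
  obtain ⟨i₀, hi₀⟩ := exists_coord hf
  set u : Fin (D + 1) → ℂ → ℂ := fun s z =>
    crd f i₀ (ρ s).2 z * eval (fun i => crd f i₀ i z) (m (ρ s).1) with hu
  have hum : ∀ s z, MeromorphicAt (u s) z := fun s z =>
    (crd_mero hf i₀ _ z).mul (eval_crd_mero hf i₀ _ z)
  obtain ⟨v, hv, h⟩ := constant_direction (N₀ := 0) (e := 1) (k := k) le_rfl τ hτ
    (by simpa using hk) (fun _ => 1) (by simpa using hN) u hum (fun i => i.elim0)
    (fun i => i.elim0) (by
      intro z₀
      refine Eventually.of_forall fun z => ?_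
      have h1 := congrArg (fun y => (((f z).rep i₀)⁻¹ ^ (e + 1)) ^ k * y) (hrel z)
      simp only [mul_zero, Finset.mul_sum] at h1
      simp only [one_mul, Finset.univ_eq_empty, Finset.sum_empty, add_zero]
      rw [← h1]
      refine Finset.sum_congr rfl fun j _ => ?_
      rw [← mul_pow]
      congr 1
      rw [Finset.mul_sum]
      refine Finset.sum_congr rfl fun s _ => ?_
      simp only [hu]
      rw [eval_crd f i₀ (hm _)]
      unfold crd
      rw [div_eq_mul_inv]
      ring)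
  refine form_everywhere hf (hm c) ?_ z
  by_contra hcon
  push Not at hcon
  obtain ⟨z₁, hz₁⟩ := hcon
  -- the form does not vanish generically
  have hmc : ∀ z₀, ∀ᶠ z in 𝓝[≠] z₀, eval (fun i => crd f i₀ i z) (m c) ≠ 0 := by
    refine mero_ne (fun z => eval_crd_mero hf i₀ (m c) z) (z₁ := z₁) ?_
    have h2 := (hi₀ z₁).and_frequently hz₁
    refine h2.mono fun z hz => ?_
    rw [eval_crd f i₀ (hm c)]
    exact mul_ne_zero (pow_ne_zero _ (inv_ne_zero (crd_self hz.1).1)) hz.2
  obtain ⟨z', w', hzw⟩ := hne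
  apply hzw
  refine const_of_direction hf hi₀ (fun i => v (ρ.symm (c, i))) ?_ ?_ z' w'
  · intro h0
    obtain ⟨s', hs'⟩ : ∃ s, v s ≠ 0 := by
      by_contra hcon
      push Not at hcon
      exact hv (funext hcon)
    obtain ⟨z, ⟨hz1, hz2⟩, hz3⟩ := (((h 0).and (hmc 0)).and (hi₀ 0)).exists
    have h3 := hz1 (ρ.symm (c, i₀)) s'
    have h4 : v (ρ.symm (c, i₀)) = 0 := congrFun h0 i₀
    rw [h4, mul_zero] at h3
    simp only [hu, Equiv.apply_symm_apply] at h3
    rcases mul_eq_zero.1 h3 with h5 | h5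
    · rcases mul_eq_zero.1 h5 with h6 | h6
      · exact hz3 h6
      · exact hz2 h6
    · exact hs' h5
  · intro z₀
    filter_upwards [h z₀, hmc z₀] with z hz1 hz2 i j
    have h3 := hz1 (ρ.symm (c, i)) (ρ.symm (c, j))
    simp only [hu, Equiv.apply_symm_apply] at h3
    apply mul_right_cancel₀ hz2
    linear_combination h3

end Pool.Agent.Work.MP_f82ddf_nt
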