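import Pool.Agent.Work.MP_f82ddf_nt.Red.Defs
import Pool.Agent.Work.MP_f82ddf_nt.Brody.Brody

/-!
# The Segre embedding: bihomogeneous equations in one projective space
-/

open MvPolynomial Topology Filter
open scoped LinearAlgebra.Projectivization ENNReal

namespace Pool.Agent.Work.MP_f82ddf_nt

namespace Segre

variable {n b : ℕ}

/-- The dimension of the Segre space. -/
def NN (n b : ℕ) : ℕ := (n + 1) * (b + 1) - 1

theorem NN_succ (n b : ℕ) : NN n b + 1 = (n + 1) * (b + 1) := by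
  have : 0 < (n + 1) * (b + 1) := by positivity
  unfold NN
  omega

/-- The pairs of indices. -/
def idx (n b : ℕ) : Fin (NN n b + 1) ≃ Fin (n + 1) × Fin (b + 1) :=
  (finCongr (NN_succ n b)).trans finProdFinEquiv.symm

section alg

variable {R : Type*} [Field R]

/-- The products of the coordinates. -/
def pr (x : Fin (n + 1) → R) (z : Fin (b + 1) → R) : Fin (NN n b + 1) → R :=
  fun k => x (idx n b k).1 * z (idx n b k).2

theorem pr_apply (x : Fin (n + 1) → R) (z : Fin (b + 1) → R) (i : Fin (n + 1))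
    (j : Fin (b + 1)) : pr x z ((idx n b).symm (i, j)) = x i * z j := by
  simp [pr]

theorem pr_ne {x : Fin (n + 1) → R} {z : Fin (b + 1) → R} (hx : x ≠ 0) (hz : z ≠ 0) :
    pr x z ≠ 0 := by
  obtain ⟨i, hi⟩ := Function.ne_iff.1 hx
  obtain ⟨j, hj⟩ := Function.ne_iff.1 hz
  intro h
  have h1 := congrFun h ((idx n b).symm (i, j))
  rw [pr_apply] at h1
  exact (mul_ne_zero hi hj) h1

theorem pr_smul (x : Fin (n + 1) → R) (z : Fin (b + 1) → R) (α β : R) :
    pr (α • x) (β • z) = (α * β) • pr x z := by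
  funext k
  simp only [pr, Pi.smul_apply, smul_eq_mul]
  ring

/-- The Segre map. -/
noncomputable def seg (p : PSpace R n × PSpace R b) : PSpace R (NN n b) :=
  Projectivization.mk R (pr p.1.rep p.2.rep) (pr_ne p.1.rep_nonzero p.2.rep_nonzero)

theorem seg_mk (x : Fin (n + 1) → R) (hx : x ≠ 0) (z : Fin (b + 1) → R) (hz : z ≠ 0) :
    seg (Projectivization.mk R x hx, Projectivization.mk R z hz) =
      Projectivization.mk R (pr x z) (pr_ne hx hz) := by
  obtain ⟨α, hα⟩ := Projectivization.exists_smul_eq_mk_rep R x hx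
  obtain ⟨β, hβ⟩ := Projectivization.exists_smul_eq_mk_rep R z hz
  unfold seg
  rw [Projectivization.mk_eq_mk_iff']
  refine ⟨(α : R) * β, ?_⟩
  rw [← pr_smul]
  dsimp only
  rw [← hα, ← hβ]
  rfl

theorem eq_of_pr {x x' : Fin (n + 1) → R} {z z' : Fin (b + 1) → R} (hx : x ≠ 0) (hz : z ≠ 0)
    {c : R} (h : pr x z = c • pr x' z') :
    (∃ α : R, x = α • x') ∧ ∃ β : R, z = β • z' := by
  obtain ⟨a, ha⟩ := Function.ne_iff.1 hx
  obtain ⟨k, hk⟩ := Function.ne_iff.1 hz
  have h1 : ∀ i j, x i * z j = c * (x' i * z' j) := by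
    intro i j
    have := congrFun h ((idx n b).symm (i, j))
    rw [pr_apply, Pi.smul_apply, pr_apply, smul_eq_mul] at this
    exact this
  have ha' : x a ≠ 0 := ha
  have hk' : z k ≠ 0 := hk
  refine ⟨⟨c * z' k / z k, ?_⟩, ⟨c * x' a / x a, ?_⟩⟩
  · funext i
    rw [Pi.smul_apply, smul_eq_mul]
    field_simp
    rw [h1 i k]
    ring
  · funext j
    rw [Pi.smul_apply, smul_eq_mul]
    field_simp
    rw [mul_comm, h1 a j]
    ring

theorem seg_injective : Function.Injective (seg : PSpace R n × PSpace R b → PSpace R (NN n b)) := by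
  intro p q h
  unfold seg at h
  rw [Projectivization.mk_eq_mk_iff'] at h
  obtain ⟨c, hc⟩ := h
  obtain ⟨⟨α, hα⟩, ⟨β, hβ⟩⟩ := eq_of_pr p.1.rep_nonzero p.2.rep_nonzero hc.symm
  refine Prod.ext ?_ ?_
  · conv_lhs => rw [← p.1.mk_rep]
    conv_rhs => rw [← q.1.mk_rep]
    rw [Projectivization.mk_eq_mk_iff']
    exact ⟨α, hα.symm⟩
  · conv_lhs => rw [← p.2.mk_rep]
    conv_rhs => rw [← q.2.mk_rep]
    rw [Projectivization.mk_eq_mk_iff']
    exact ⟨β, hβ.symm⟩

end alg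

section poly

variable {K : Type*} [Field K]

/-- The quadrics of the Segre variety. -/
noncomputable def quad (K : Type*) [Field K] (i k : Fin (n + 1)) (j l : Fin (b + 1)) :
    MvPolynomial (Fin (NN n b + 1)) K :=
  X ((idx n b).symm (i, j)) * X ((idx n b).symm (k, l)) -
    X ((idx n b).symm (i, l)) * X ((idx n b).symm (k, j))

/-- The form `F` in the coordinates of the Segre space. -/
noncomputable def FF (F : MvPolynomial (Fin (n + 1) ⊕ Fin (b + 1)) K) (a : Fin (n + 1))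
    (c : Fin (b + 1)) : MvPolynomial (Fin (NN n b + 1)) K :=
  rename (Sum.elim (fun i => (idx n b).symm (i, c)) (fun j => (idx n b).symm (a, j))) F

/-- The form `H` in the coordinates of the Segre space. -/
noncomputable def HH (H : MvPolynomial (Fin (b + 1)) K) (a : Fin (n + 1)) :
    MvPolynomial (Fin (NN n b + 1)) K :=
  rename (fun j => (idx n b).symm (a, j)) H

/-- The equations in the Segre space. -/
def SS (F : MvPolynomial (Fin (n + 1) ⊕ Fin (b + 1)) K) (H : MvPolynomial (Fin (b + 1)) K) :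
    Set (MvPolynomial (Fin (NN n b + 1)) K) :=
  {G | (∃ i k j l, G = quad K i k j l) ∨ (∃ a c, G = FF F a c) ∨ ∃ a, G = HH H a}

variable {F : MvPolynomial (Fin (n + 1) ⊕ Fin (b + 1)) K} {H : MvPolynomial (Fin (b + 1)) K}
  {d e h : ℕ}

theorem isHomogeneous_of_bi (hF : IsBihomogeneous F d e) : F.IsHomogeneous (d + e) := by
  intro m hm
  have h1 := hF m (mem_support_iff.2 hm)
  have h2 : Finsupp.weight 1 m = ∑ x, m x := by
    rw [Finsupp.weight_apply, Finsupp.sum_fintype]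
    · simp
    · simp
  rw [h2, Fintype.sum_sum_type, h1.1, h1.2]

theorem isHomogeneous_SS (hF : IsBihomogeneous F d e) (hH : H.IsHomogeneous h) :
    ∀ G ∈ SS F H, ∃ d, G.IsHomogeneous d := by
  rintro G (⟨i, k, j, l, rfl⟩ | ⟨a, c, rfl⟩ | ⟨a, rfl⟩)
  · exact ⟨1 + 1, ((isHomogeneous_X _ _).mul (isHomogeneous_X _ _)).sub
      ((isHomogeneous_X _ _).mul (isHomogeneous_X _ _))⟩
  · exact ⟨d + e, (isHomogeneous_of_bi hF).rename_isHomogeneous⟩
  · exact ⟨h, hH.rename_isHomogeneous⟩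

variable {R : Type*} [Field R]

theorem eval₂_bismul (hF : IsBihomogeneous F d e) (σ : K →+* R) (x : Fin (n + 1) → R)
    (z : Fin (b + 1) → R) (α β : R) :
    eval₂ σ (Sum.elim (fun i => x i * α) (fun j => β * z j)) F =
      α ^ d * β ^ e * eval₂ σ (Sum.elim x z) F := by
  rw [eval₂_eq', eval₂_eq', Finset.mul_sum]
  refine Finset.sum_congr rfl fun m hm => ?_
  obtain ⟨h1, h2⟩ := hF m hm
  rw [Fintype.prod_sum_type, Fintype.prod_sum_type]
  simp only [Sum.elim_inl, Sum.elim_inr, mul_pow, Finset.prod_mul_distrib]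
  rw [Finset.prod_pow_eq_pow_sum, Finset.prod_pow_eq_pow_sum, h1, h2]
  ring

theorem eval₂_FF (hF : IsBihomogeneous F d e) (σ : K →+* R) (x : Fin (n + 1) → R)
    (z : Fin (b + 1) → R) (a : Fin (n + 1)) (c : Fin (b + 1)) :
    eval₂ σ (pr x z) (FF F a c) = z c ^ d * x a ^ e * eval₂ σ (Sum.elim x z) F := by
  unfold FF
  rw [eval₂_rename, ← eval₂_bismul hF]
  congr 1
  funext k
  rcases k with i | j
  · simp only [Function.comp, Sum.elim_inl, pr_apply]
  · simp only [Function.comp, Sum.elim_inr, pr_apply]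

theorem eval₂_HH (hH : H.IsHomogeneous h) (σ : K →+* R) (x : Fin (n + 1) → R)
    (z : Fin (b + 1) → R) (a : Fin (n + 1)) :
    eval₂ σ (pr x z) (HH H a) = x a ^ h * eval₂ σ z H := by
  unfold HH
  rw [eval₂_rename, ← eval₂_smul_hom hH]
  congr 1
  funext j
  simp only [Function.comp, pr_apply, Pi.smul_apply, smul_eq_mul]

theorem eval₂_quad (σ : K →+* R) (y : Fin (NN n b + 1) → R) (i k : Fin (n + 1))
    (j l : Fin (b + 1)) :
    eval₂ σ y (quad K i k j l) = y ((idx n b).symm (i, j)) * y ((idx n b).symm (k, l)) -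
      y ((idx n b).symm (i, l)) * y ((idx n b).symm (k, j)) := by
  unfold quad
  rw [eval₂_sub, eval₂_mul, eval₂_mul, eval₂_X, eval₂_X, eval₂_X, eval₂_X]

theorem vanish_iff (hF : IsBihomogeneous F d e) (hH : H.IsHomogeneous h) (σ : K →+* R)
    {x : Fin (n + 1) → R} {z : Fin (b + 1) → R} (hx : x ≠ 0) (hz : z ≠ 0) :
    (∀ G ∈ SS F H, eval₂ σ (pr x z) G = 0) ↔
      eval₂ σ (Sum.elim x z) F = 0 ∧ eval₂ σ z H = 0 := by
  obtain ⟨a, ha⟩ := Function.ne_iff.1 hx
  obtain ⟨c, hc⟩ := Function.ne_iff.1 hz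
  have ha' : x a ≠ 0 := ha
  have hc' : z c ≠ 0 := hc
  constructor
  · intro hG
    have h1 := hG (FF F a c) (Or.inr (Or.inl ⟨a, c, rfl⟩))
    have h2 := hG (HH H a) (Or.inr (Or.inr ⟨a, rfl⟩))
    rw [eval₂_FF hF] at h1
    rw [eval₂_HH hH] at h2
    refine ⟨?_, ?_⟩
    · rcases mul_eq_zero.1 h1 with h3 | h3
      · exact absurd h3 (mul_ne_zero (pow_ne_zero _ hc') (pow_ne_zero _ ha'))
      · exact h3
    · rcases mul_eq_zero.1 h2 with h3 | h3
      · exact absurd h3 (pow_ne_zero _ ha')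
      · exact h3
  · rintro ⟨h1, h2⟩ G (⟨i, k, j, l, rfl⟩ | ⟨a, c, rfl⟩ | ⟨a, rfl⟩)
    · rw [eval₂_quad, pr_apply, pr_apply, pr_apply, pr_apply]
      ring
    · rw [eval₂_FF hF, h1, mul_zero]
    · rw [eval₂_HH hH, h2, mul_zero]

theorem seg_vanish_iff (hF : IsBihomogeneous F d e) (hH : H.IsHomogeneous h) (σ : K →+* R)
    (p : PSpace R n × PSpace R b) :
    (∀ G ∈ SS F H, eval₂ σ (seg p).rep G = 0) ↔
      eval₂ σ (Sum.elim p.1.rep p.2.rep) F = 0 ∧ eval₂ σ p.2.rep H = 0 := by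
  rw [← vanish_iff hF hH σ p.1.rep_nonzero p.2.rep_nonzero]
  unfold seg
  constructor
  · intro h1 G hG
    obtain ⟨d', hd'⟩ := isHomogeneous_SS hF hH G hG
    exact (eval₂_rep_iff hd' σ _ _).1 (h1 G hG)
  · intro h1 G hG
    obtain ⟨d', hd'⟩ := isHomogeneous_SS hF hH G hG
    exact (eval₂_rep_iff hd' σ _ _).2 (h1 G hG)

theorem exists_pr (σ : K →+* R) {y : Fin (NN n b + 1) → R} (hy : y ≠ 0)
    (hq : ∀ G ∈ SS F H, eval₂ σ y G = 0) :
    ∃ (x : Fin (n + 1) → R) (z : Fin (b + 1) → R) (c : R), x ≠ 0 ∧ z ≠ 0 ∧ c ≠ 0 ∧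
      pr x z = c • y := by
  obtain ⟨k, hk⟩ := Function.ne_iff.1 hy
  set a := (idx n b k).1 with ha
  set c := (idx n b k).2 with hc
  have hk' : y ((idx n b).symm (a, c)) ≠ 0 := by
    rw [ha, hc, Prod.mk.eta, Equiv.symm_apply_apply]
    exact hk
  refine ⟨fun i => y ((idx n b).symm (i, c)), fun j => y ((idx n b).symm (a, j)),
    y ((idx n b).symm (a, c)), ?_, ?_, hk', ?_⟩
  · intro h0
    exact hk' (congrFun h0 a)
  · intro h0
    exact hk' (congrFun h0 c)
  · funext l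
    have h1 := hq (quad K (idx n b l).1 a (idx n b l).2 c) (Or.inl ⟨_, _, _, _, rfl⟩)
    rw [eval₂_quad] at h1
    simp only [Prod.mk.eta, Equiv.symm_apply_apply] at h1
    simp only [pr, Pi.smul_apply, smul_eq_mul]
    linear_combination -h1

theorem exists_seg (hF : IsBihomogeneous F d e) (hH : H.IsHomogeneous h) (σ : K →+* R)
    (y : PSpace R (NN n b)) (hq : ∀ G ∈ SS F H, eval₂ σ y.rep G = 0) : ∃ p, seg p = y := by
  obtain ⟨x, z, c, hx, hz, hc, hxz⟩ := exists_pr (F := F) (H := H) σ y.rep_nonzero hq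
  refine ⟨(Projectivization.mk R x hx, Projectivization.mk R z hz), ?_⟩
  rw [seg_mk]
  conv_rhs => rw [← y.mk_rep]
  rw [Projectivization.mk_eq_mk_iff']
  exact ⟨c, hxz.symm⟩

end poly

section holo

theorem seg_lift {f : ℂ → PSpace ℂ n} {g : ℂ → PSpace ℂ b} {u : ℂ → Fin (n + 1) → ℂ}
    {v : ℂ → Fin (b + 1) → ℂ} {z₀ : ℂ} (hu : IsLift f u z₀) (hv : IsLift g v z₀) :
    IsLift (fun z => seg (f z, g z)) (fun z => pr (u z) (v z)) z₀ := by
  refine ⟨?_, ?_⟩
  · rw [analyticAt_pi_iff]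
    intro k
    exact ((analyticAt_pi_iff.1 hu.1) _).mul ((analyticAt_pi_iff.1 hv.1) _)
  · filter_upwards [hu.2, hv.2] with z h1 h2
    obtain ⟨h3, h4⟩ := h1
    obtain ⟨h5, h6⟩ := h2
    refine ⟨pr_ne h3 h5, ?_⟩
    rw [h4, h6, seg_mk]

theorem unseg_lift {φ : ℂ → PSpace ℂ (NN n b)} {y : ℂ → Fin (NN n b + 1) → ℂ}
    {f : ℂ → PSpace ℂ n} {g : ℂ → PSpace ℂ b} {z₀ : ℂ} (hy : IsLift φ y z₀)
    (hs : ∀ᶠ z in 𝓝 z₀, seg (f z, g z) = φ z) :
    (∃ u, IsLift f u z₀) ∧ ∃ v, IsLift g v z₀ := by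
  obtain ⟨k, hk⟩ := Function.ne_iff.1 hy.ne
  set a := (idx n b k).1 with ha
  set c := (idx n b k).2 with hc
  have hk' : y z₀ ((idx n b).symm (a, c)) ≠ 0 := by
    rw [ha, hc, Prod.mk.eta, Equiv.symm_apply_apply]
    exact hk
  have hcont : ContinuousAt (fun z => y z ((idx n b).symm (a, c))) z₀ :=
    ((analyticAt_pi_iff.1 hy.1) _).continuousAt
  have hne : ∀ᶠ z in 𝓝 z₀, y z ((idx n b).symm (a, c)) ≠ 0 := hcont.eventually_ne hk'
  have key : ∀ᶠ z in 𝓝 z₀, ∃ r : ℂ, y z = r • pr (f z).rep (g z).rep ∧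
      y z ((idx n b).symm (a, c)) ≠ 0 := by
    filter_upwards [hy.2, hs, hne] with z h1 h2 h3
    obtain ⟨h4, h5⟩ := h1
    rw [h5] at h2
    unfold seg at h2
    rw [Projectivization.mk_eq_mk_iff'] at h2
    obtain ⟨r, hr⟩ := h2
    have hr0 : r ≠ 0 := by
      intro h0
      rw [h0, zero_smul] at hr
      exact pr_ne (f z).rep_nonzero (g z).rep_nonzero hr.symm
    refine ⟨r⁻¹, ?_, h3⟩
    rw [← hr, smul_smul, inv_mul_cancel₀ hr0, one_smul]
  refine ⟨⟨fun z i => y z ((idx n b).symm (i, c)), ?_, ?_⟩,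
    ⟨fun z j => y z ((idx n b).symm (a, j)), ?_, ?_⟩⟩
  · rw [analyticAt_pi_iff]
    exact fun i => (analyticAt_pi_iff.1 hy.1) _
  · filter_upwards [key] with z h1
    obtain ⟨r, hr, h3⟩ := h1
    have h4 : (fun i => y z ((idx n b).symm (i, c))) ≠ 0 := fun h0 => h3 (congrFun h0 a)
    refine ⟨h4, ?_⟩
    conv_lhs => rw [← (f z).mk_rep]
    symm
    rw [Projectivization.mk_eq_mk_iff']
    refine ⟨r * (g z).rep c, ?_⟩
    funext i
    rw [hr]
    simp only [Pi.smul_apply, pr_apply, smul_eq_mul]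
    ring
  · rw [analyticAt_pi_iff]
    exact fun i => (analyticAt_pi_iff.1 hy.1) _
  · filter_upwards [key] with z h1
    obtain ⟨r, hr, h3⟩ := h1
    have h4 : (fun j => y z ((idx n b).symm (a, j))) ≠ 0 := fun h0 => h3 (congrFun h0 c)
    refine ⟨h4, ?_⟩
    conv_lhs => rw [← (g z).mk_rep]
    symm
    rw [Projectivization.mk_eq_mk_iff']
    refine ⟨r * (f z).rep a, ?_⟩
    funext j
    rw [hr]
    simp only [Pi.smul_apply, pr_apply, smul_eq_mul]
    ring

theorem seg_holo {f : ℂ → PSpace ℂ n} {g : ℂ → PSpace ℂ b} {Ω : Set ℂ}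
    (hf : HolomorphicOn f Ω) (hg : HolomorphicOn g Ω) :
    HolomorphicOn (fun z => seg (f z, g z)) Ω := by
  intro z hz
  obtain ⟨u, hu⟩ := hf z hz
  obtain ⟨v, hv⟩ := hg z hz
  exact ⟨_, seg_lift hu hv⟩

theorem unseg_holo {φ : ℂ → PSpace ℂ (NN n b)} {f : ℂ → PSpace ℂ n} {g : ℂ → PSpace ℂ b}
    {Ω : Set ℂ} (hΩ : IsOpen Ω) (hφ : HolomorphicOn φ Ω)
    (hs : ∀ z ∈ Ω, seg (f z, g z) = φ z) : HolomorphicOn f Ω ∧ HolomorphicOn g Ω := by
  refine ⟨fun z hz => ?_, fun z hz => ?_⟩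
  · obtain ⟨y, hy⟩ := hφ z hz
    obtain ⟨⟨u, hu⟩, _⟩ := unseg_lift (y := y) hy (by
      filter_upwards [hΩ.mem_nhds hz] with w hw
      exact hs w hw)
    exact ⟨u, hu⟩
  · obtain ⟨y, hy⟩ := hφ z hz
    obtain ⟨_, ⟨u, hu⟩⟩ := unseg_lift (y := y) hy (by
      filter_upwards [hΩ.mem_nhds hz] with w hw
      exact hs w hw)
    exact ⟨u, hu⟩

/-- Lifting a map to the Segre variety. -/
theorem exists_unseg {φ : ℂ → PSpace ℂ (NN n b)} {Ω : Set ℂ} (hΩ : IsOpen Ω)
    (hφ : HolomorphicOn φ Ω) (hs : ∀ z ∈ Ω, ∃ p : PSpace ℂ n × PSpace ℂ b, seg p = φ z) :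
    ∃ (f : ℂ → PSpace ℂ n) (g : ℂ → PSpace ℂ b), HolomorphicOn f Ω ∧ HolomorphicOn g Ω ∧
      ∀ z ∈ Ω, seg (f z, g z) = φ z := by
  classical
  let p0 : PSpace ℂ n × PSpace ℂ b :=
    (Projectivization.mk ℂ (fun _ => 1) (fun h => one_ne_zero (congrFun h 0)),
      Projectivization.mk ℂ (fun _ => 1) (fun h => one_ne_zero (congrFun h 0)))
  let q : ℂ → PSpace ℂ n × PSpace ℂ b := fun z =>
    if h : ∃ p : PSpace ℂ n × PSpace ℂ b, seg p = φ z then h.choose else p0
  have hq : ∀ z ∈ Ω, seg (q z) = φ z := by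
    intro z hz
    have h := hs z hz
    have h1 : q z = h.choose := dif_pos h
    rw [h1]
    exact h.choose_spec
  have h2 := unseg_holo (f := fun z => (q z).1) (g := fun z => (q z).2) hΩ hφ hq
  exact ⟨_, _, h2.1, h2.2, hq⟩

variable {X : Set (PSpace ℂ (NN n b))} {Y : Set (PSpace ℂ n × PSpace ℂ b)}

theorem chain_of_biChain (hXY : ∀ p, seg p ∈ X ↔ p ∈ Y) {p q : PSpace ℂ n × PSpace ℂ b} {s : ℝ}
    (h : BiDiscChain Y p q s) : DiscChain X (seg p) (seg q) s := by
  induction h with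
  | refl p hp => exact DiscChain.refl _ ((hXY p).2 hp)
  | step f g a c q s hf hg hY ha hc _ ih =>
    exact DiscChain.step (fun z => seg (f z, g z)) a c (seg q) s (seg_holo hf hg)
      (fun z hz => (hXY _).2 (hY z hz)) ha hc ih

theorem biChain_of_chain (hXY : ∀ p, seg p ∈ X ↔ p ∈ Y) (hX : ∀ y ∈ X, ∃ p, seg p = y)
    {p' q' : PSpace ℂ (NN n b)} {s : ℝ} (h : DiscChain X p' q' s) :
    ∀ p q : PSpace ℂ n × PSpace ℂ b, seg p = p' → seg q = q' → BiDiscChain Y p q s := by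
  induction h with
  | refl p' hp' =>
    intro p q hp hq
    have h1 : p = q := seg_injective (hp.trans hq.symm)
    subst h1
    exact BiDiscChain.refl _ ((hXY p).1 (by rw [hp]; exact hp'))
  | step φ a c q' s hφ hmaps ha hc _ ih =>
    intro p q hp hq
    obtain ⟨f, g, hf, hg, hfg⟩ := exists_unseg Metric.isOpen_ball hφ
      (fun z hz => hX _ (hmaps hz))
    have h1 : (f a, g a) = p := seg_injective ((hfg a ha).trans hp.symm)
    rw [← h1]
    refine BiDiscChain.step f g a c q s hf hg ?_ ha hc (ih _ _ (hfg c hc) hq)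
    intro z hz
    rw [← hXY, hfg z hz]
    exact hmaps hz

theorem dist_eq (hXY : ∀ p, seg p ∈ X ↔ p ∈ Y) (hX : ∀ y ∈ X, ∃ p, seg p = y)
    (p q : PSpace ℂ n × PSpace ℂ b) :
    kobayashiDist X (seg p) (seg q) = biKobayashiDist Y p q := by
  unfold kobayashiDist biKobayashiDist
  refine iInf_congr fun s => ?_
  refine iInf_congr_Prop ⟨fun h => ?_, fun h => ?_⟩ (fun _ => rfl)
  · exact biChain_of_chain hXY hX h p q rfl rfl
  · exact chain_of_biChain hXY h

theorem hyperbolic_iff (hXY : ∀ p, seg p ∈ X ↔ p ∈ Y) (hX : ∀ y ∈ X, ∃ p, seg p = y) :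
    KobayashiHyperbolic X ↔ BiKobayashiHyperbolic Y := by
  constructor
  · intro h p hp q hq hpq
    rw [← dist_eq hXY hX]
    exact h _ ((hXY p).2 hp) _ ((hXY q).2 hq) (fun h0 => hpq (seg_injective h0))
  · intro h p' hp' q' hq' hpq
    obtain ⟨p, rfl⟩ := hX p' hp'
    obtain ⟨q, rfl⟩ := hX q' hq'
    rw [dist_eq hXY hX]
    exact h p ((hXY p).1 hp') q ((hXY q).1 hq') (fun h0 => hpq (by rw [h0]))

end holo

end Segre

open Segre in
/-- The subvariety of a product of projective spaces given by one bihomogeneous form and one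
form in the second group of variables, as a projective variety in the Segre space. -/
theorem exists_segre {K : Type} [Field K] {n b d e h : ℕ}
    (F : MvPolynomial (Fin (n + 1) ⊕ Fin (b + 1)) K) (H : MvPolynomial (Fin (b + 1)) K)
    (hF : IsBihomogeneous F d e) (hH : H.IsHomogeneous h) :
    ∃ (N : ℕ) (S : Set (MvPolynomial (Fin (N + 1)) K)), (∀ G ∈ S, ∃ d, G.IsHomogeneous d) ∧
      (∀ (L : Type) [Field L] [Algebra K L], (points S L).Finite ↔ (biPoints F H L).Finite) ∧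
      (∀ σ : K →+* ℂ, KobayashiHyperbolic (complexPoints S σ) ↔
        BiKobayashiHyperbolic (biComplexPoints F H σ)) ∧
      ∀ σ : K →+* ℂ, KobayashiHyperbolic (complexPoints S σ) ↔
        ∀ (f : ℂ → PSpace ℂ n) (g : ℂ → PSpace ℂ b), HolomorphicOn f Set.univ →
          HolomorphicOn g Set.univ → (∀ z, (f z, g z) ∈ biComplexPoints F H σ) →
          ∀ z w, f z = f w ∧ g z = g w := by
  have hS := isHomogeneous_SS hF hH
  have hmem : ∀ (σ : K →+* ℂ) (p : PSpace ℂ n × PSpace ℂ b),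
      seg p ∈ complexPoints (SS F H) σ ↔ p ∈ biComplexPoints F H σ :=
    fun σ p => seg_vanish_iff hF hH σ p
  have hsurj : ∀ (σ : K →+* ℂ), ∀ y ∈ complexPoints (SS F H) σ,
      ∃ p : PSpace ℂ n × PSpace ℂ b, seg p = y :=
    fun σ y hy => exists_seg hF hH σ y hy
  refine ⟨NN n b, SS F H, hS, ?_, ?_, ?_⟩
  · intro L _ _
    have himg : points (SS F H) L = seg '' biPoints F H L := by
      ext y
      constructor
      · intro hy
        obtain ⟨p, hp⟩ := exists_seg hF hH (algebraMap K L) y hy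
        refine ⟨p, ?_, hp⟩
        rw [← hp] at hy
        exact (seg_vanish_iff hF hH (algebraMap K L) p).1 hy
      · rintro ⟨p, hp, rfl⟩
        exact (seg_vanish_iff hF hH (algebraMap K L) p).2 hp
    rw [himg]
    exact Set.finite_image_iff seg_injective.injOn
  · intro σ
    exact hyperbolic_iff (hmem σ) (hsurj σ)
  · intro σ
    constructor
    · intro hyp f g hf hg hfg z w
      by_contra hne
      have h1 : seg (f z, g z) ≠ seg (f w, g w) := by
        intro h0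
        have h2 := seg_injective h0
        exact hne ⟨congrArg Prod.fst h2, congrArg Prod.snd h2⟩
      exact not_kobayashi (fun z => seg (f z, g z)) (seg_holo hf hg)
        (fun z => (hmem σ _).2 (hfg z)) z w h1 hyp
    · intro hconst
      by_contra hyp
      obtain ⟨φ, hφ, hφX, z, w, hzw⟩ := exists_entire_curve hS σ hyp
      obtain ⟨f, g, hf, hg, hfg⟩ := exists_unseg isOpen_univ hφ
        (fun z _ => hsurj σ _ (hφX z))
      have h1 := hconst f g hf hg (fun z => (hmem σ _).1 (by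
        rw [hfg z (Set.mem_univ z)]
        exact hφX z)) z w
      apply hzw
      rw [← hfg z (Set.mem_univ z), ← hfg w (Set.mem_univ w), h1.1, h1.2]

end Pool.Agent.Work.MP_f82ddf_nt
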