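import Pool.Agent.Work.MP_f82ddf_nt.Red.Space
import Pool.Agent.Work.MP_f82ddf_nt.Red.Segre

/-!
# The total space: hyperbolicity and rational points
-/

open MvPolynomial Topology Filter Set
open scoped LinearAlgebra.Projectivization ENNReal

namespace Pool.Agent.Work.MP_f82ddf_nt

/-- Hyperbolic projective varieties over number fields have finitely many points. -/
def HypFinite : Prop :=
  ∀ (K : Type) [Field K] [NumberField K] (n : ℕ) (S : Set (MvPolynomial (Fin (n + 1)) K))
    (σ : K →+* ℂ), (∀ G ∈ S, ∃ d, G.IsHomogeneous d) →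
    KobayashiHyperbolic (complexPoints S σ) → (points S K).Finite

/-- The point `(1, 0, ..., 0)`. -/
noncomputable def origin (R : Type*) [Field R] (b : ℕ) : PSpace R b :=
  Projectivization.mk R (Pi.single 0 1) (by
    intro h
    have := congrFun h 0
    simp at this)

theorem origin_rep (R : Type*) [Field R] (b : ℕ) (i : Fin b) : (origin R b).rep i.succ = 0 := by
  obtain ⟨a, ha⟩ := Projectivization.exists_smul_eq_mk_rep R (Pi.single 0 1 : Fin (b + 1) → R) (by
    intro h
    have := congrFun h 0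
    simp at this)
  unfold origin
  rw [← ha]
  show (a : R) * (Pi.single 0 1 : Fin (b + 1) → R) i.succ = 0
  rw [Pi.single_eq_of_ne (Fin.succ_ne_zero i), mul_zero]

theorem rep_zero_ne {R : Type*} [Field R] {b : ℕ} (q : PSpace R b)
    (h : ∀ i : Fin b, q.rep i.succ = 0) : q.rep 0 ≠ 0 := by
  intro h0
  apply q.rep_nonzero
  funext i
  refine Fin.cases h0 (fun j => h j) i

section

variable {K : Type} [Field K] [CharZero K] {n : ℕ} {C D N B e k : ℕ}

theorem eval_total_origin (m : Fin C → MvPolynomial (Fin (n + 1)) K)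
    (ρ : Fin (D + 1) ≃ Fin C × Fin (n + 1)) (τ : Fin N → ℚ)
    (t r : Fin B → ℚ) (d : ℕ) (ε : ℚ) {R : Type} [Field R] [CharZero R] (σ : K →+* R)
    (x : Fin (n + 1) → R) (ζ : Fin (n + 2 + 1) → R) (hζ : ∀ i : Fin (n + 2), ζ i.succ = 0) :
    eval₂ σ (Sum.elim x ζ) (totalForm K n d B (wForm m ρ τ k) t r ε) =
      ε * ζ 0 * eval₂ σ x (wForm m ρ τ k) := by
  rw [eval₂_totalForm]
  simp only [hζ, zero_mul, Finset.sum_const_zero, zero_add, add_zero]
  ring

theorem eval_base_origin (q h : ℕ) (hh : h ≠ 0) (s : Fin (q + 1) → ℚ) (ε : ℚ) {R : Type} [Field R]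
    [CharZero R] (σ : K →+* R) (ζ : Fin (n + 2 + 1) → R) (hζ : ∀ i : Fin (n + 2), ζ i.succ = 0) :
    eval₂ σ ζ (baseForm K n h q s ε) = 0 := by
  rw [eval₂_baseForm]
  have h1 : ζ 1 = 0 := hζ 0
  have h2 : ∀ t : ℚ, ∑ i, ζ i * (t : R) ^ (i : ℕ) = ζ 0 := by
    intro t
    rw [Fin.sum_univ_succ]
    simp [hζ]
  simp only [h2, h1, hζ, add_zero, sub_self, zero_pow hh, Finset.sum_const_zero, Finset.sum_const,
    Finset.card_univ, Fintype.card_fin, nsmul_eq_mul, mul_zero]

end

section fibre

variable {K L : Type} [Field K] [Field L] [Algebra K L] {n b : ℕ}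

/-- The fibre of `F(x, z) = 0` over a point `z`. -/
noncomputable def fibreForm (F : MvPolynomial (Fin (n + 1) ⊕ Fin (b + 1)) K)
    (ζ : Fin (b + 1) → L) : MvPolynomial (Fin (n + 1)) L :=
  aeval (Sum.elim X fun j => MvPolynomial.C (ζ j)) F

theorem fibreForm_homogeneous {F : MvPolynomial (Fin (n + 1) ⊕ Fin (b + 1)) K} {d e : ℕ}
    (hF : IsBihomogeneous F d e) (ζ : Fin (b + 1) → L) : (fibreForm F ζ).IsHomogeneous d := by
  unfold fibreForm
  rw [aeval_def, eval₂_eq']
  apply IsHomogeneous.sum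
  intro m hm
  rw [Fintype.prod_sum_type]
  simp only [Sum.elim_inl, Sum.elim_inr]
  have h1 : (∏ i : Fin (n + 1), (X i : MvPolynomial (Fin (n + 1)) L) ^ m (Sum.inl i)).IsHomogeneous
      (∑ i, m (Sum.inl i)) := by
    apply IsHomogeneous.prod
    intro i _
    exact isHomogeneous_X_pow i _
  have h2 : (∏ j : Fin (b + 1), (MvPolynomial.C (ζ j) : MvPolynomial (Fin (n + 1)) L) ^
      m (Sum.inr j)).IsHomogeneous 0 := by
    have h3 := IsHomogeneous.prod (Finset.univ : Finset (Fin (b + 1)))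
      (fun j => (MvPolynomial.C (ζ j) : MvPolynomial (Fin (n + 1)) L) ^ m (Sum.inr j))
      (fun _ => 0) (fun j _ => by
        have h4 := (isHomogeneous_C (Fin (n + 1)) (ζ j)).pow (m (Sum.inr j))
        rwa [zero_mul] at h4)
    simpa using h3
  have h3 : (algebraMap K (MvPolynomial (Fin (n + 1)) L) (coeff m F)).IsHomogeneous 0 :=
    isHomogeneous_C (Fin (n + 1)) (algebraMap K L (coeff m F))
  have h4 := h3.mul (h1.mul h2)
  rw [(hF m hm).1, zero_add, add_zero] at h4
  exact h4

theorem eval₂_fibreForm {R : Type} [Field R] (F : MvPolynomial (Fin (n + 1) ⊕ Fin (b + 1)) K)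
    (ζ : Fin (b + 1) → L) (σ : L →+* R) (x : Fin (n + 1) → R) :
    eval₂ σ x (fibreForm F ζ) =
      eval₂ (σ.comp (algebraMap K L)) (Sum.elim x fun j => σ (ζ j)) F := by
  have h1 : (eval₂Hom σ x).comp (aeval (R := K)
      (Sum.elim X fun j => MvPolynomial.C (ζ j) :
        Fin (n + 1) ⊕ Fin (b + 1) → MvPolynomial (Fin (n + 1)) L)).toRingHom =
      eval₂Hom (σ.comp (algebraMap K L)) (Sum.elim x fun j => σ (ζ j)) := by
    apply MvPolynomial.ringHom_ext
    · intro c
      show eval₂ σ x (aeval (R := K) _ (MvPolynomial.C c)) = eval₂ _ _ (MvPolynomial.C c)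
      rw [algHom_C, eval₂_C]
      exact eval₂_C σ x (algebraMap K L c)
    · rintro (i | j)
      · show eval₂ σ x (aeval (R := K) _ (X (Sum.inl i))) = eval₂ _ _ (X (Sum.inl i))
        rw [aeval_X, eval₂_X, Sum.elim_inl, Sum.elim_inl, eval₂_X]
      · show eval₂ σ x (aeval (R := K) _ (X (Sum.inr j))) = eval₂ _ _ (X (Sum.inr j))
        rw [aeval_X, eval₂_X, Sum.elim_inr, Sum.elim_inr, eval₂_C]
  exact congrArg (fun φ => φ F) h1

theorem aeval_fibreForm (F : MvPolynomial (Fin (n + 1) ⊕ Fin (b + 1)) K)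
    (ζ : Fin (b + 1) → L) (x : Fin (n + 1) → L) :
    aeval x (fibreForm F ζ) = aeval (Sum.elim x ζ) F := by
  rw [aeval_def, aeval_def, Algebra.algebraMap_self, eval₂_fibreForm]
  rfl

end fibre

section arithmetic

theorem finite_of_curves (hyp : HypFinite) {L : Type} [Field L] [NumberField L] {l : ℕ}
    (G : MvPolynomial (Fin (l + 1)) L) {d : ℕ} (hG : G.IsHomogeneous d)
    (h : ∀ (σ : L →+* ℂ) (f : ℂ → PSpace ℂ l), HolomorphicOn f univ →
      (∀ z, eval₂ σ (f z).rep G = 0) → ∀ z w, f z = f w) :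
    {p : PSpace L l | aeval p.rep G = 0}.Finite := by
  obtain ⟨σ⟩ : Nonempty (L →+* ℂ) := inferInstance
  have hS : ∀ G' ∈ ({G} : Set (MvPolynomial (Fin (l + 1)) L)), ∃ d, G'.IsHomogeneous d := by
    rintro G' rfl
    exact ⟨d, hG⟩
  have h1 := hyp L l {G} σ hS (hyperbolic_of_const hS σ fun f hf hX z w =>
    h σ f hf (fun z => hX z G rfl) z w)
  refine h1.subset fun p hp => ?_
  rintro G' rfl
  exact hp

/-- The points of `W = 0` outside of the base locus map injectively to a hyperbolic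
hypersurface. -/
theorem w_points_finite (hyp : HypFinite) {K L : Type} [Field K] [CharZero K] [Field L]
    [NumberField L] [Algebra K L] {n C D N k : ℕ}
    (m : Fin C → MvPolynomial (Fin (n + 1)) K)
    (ρ : Fin (D + 1) ≃ Fin C × Fin (n + 1)) (τ : Fin N → ℚ)
    (hτ : GenPts D N τ) (hN : D + 3 * ((D + 1) * (D + 1)) ≤ N) (hk : N * (N - 2) < k) :
    {p : PSpace L n | aeval p.rep (wForm m ρ τ k) = 0 ∧ ∃ c, aeval p.rep (m c) ≠ 0}.Finite := by
  classical
  let Φ : MvPolynomial (Fin (D + 1)) L :=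
    ∑ j, (∑ s : Fin (D + 1), X s * MvPolynomial.C ((τ j : L) ^ (s : ℕ))) ^ k
  have hΦ : Φ.IsHomogeneous k := by
    apply IsHomogeneous.sum
    intro j _
    have h1 : (∑ s : Fin (D + 1), (X s : MvPolynomial (Fin (D + 1)) L) *
        MvPolynomial.C ((τ j : L) ^ (s : ℕ))).IsHomogeneous 1 := by
      apply IsHomogeneous.sum
      intro s _
      exact (isHomogeneous_X L s).mul (isHomogeneous_C (Fin (D + 1)) ((τ j : L) ^ (s : ℕ)))
    have h2 := h1.pow k
    rwa [one_mul] at h2
  have hΦe : ∀ {R : Type} [Field R] [CharZero R] (σ : L →+* R) (y : Fin (D + 1) → R),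
      eval₂ σ y Φ = ∑ j, (∑ s, y s * (τ j : R) ^ (s : ℕ)) ^ k := by
    intro R _ _ σ y
    show eval₂ σ y (∑ j, (∑ s : Fin (D + 1), X s * MvPolynomial.C ((τ j : L) ^ (s : ℕ))) ^ k) = _
    rw [eval₂_sum]
    refine Finset.sum_congr rfl fun j _ => ?_
    rw [eval₂_pow, eval₂_sum]
    congr 1
    refine Finset.sum_congr rfl fun s _ => ?_
    rw [eval₂_mul, eval₂_X, eval₂_C, map_pow, map_ratCast]
  have hfin : {y : PSpace L D | aeval y.rep Φ = 0}.Finite := by
    refine finite_of_curves hyp Φ hΦ fun σ f hf hX z w => ?_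
    refine curve_const (N₀ := 0) (e := 1) (k := k) le_rfl τ hτ (by simpa using hk)
      (fun _ => 1) (by simpa using hN) (fun i => i.elim0) (fun i => i.elim0) hf ?_ z w
    intro z
    rw [← hX z, hΦe]
    simp
  -- the map
  let M : (Fin (n + 1) → L) → Fin (D + 1) → L := fun x s => x (ρ s).2 * aeval x (m (ρ s).1)
  have hM : ∀ p : PSpace L n, (∃ c, aeval p.rep (m c) ≠ 0) → M p.rep ≠ 0 := by
    rintro p ⟨c, hc⟩ h0
    apply p.rep_nonzero
    funext i
    have h1 := congrFun h0 (ρ.symm (c, i))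
    simp only [M, Equiv.apply_symm_apply, Pi.zero_apply] at h1
    exact (mul_eq_zero.1 h1).resolve_right hc
  let φ : PSpace L n → PSpace L D := fun p =>
    if h : M p.rep ≠ 0 then Projectivization.mk L (M p.rep) h else origin L D
  refine Set.Finite.of_injOn (f := φ) (t := {y : PSpace L D | aeval y.rep Φ = 0}) ?_ ?_ hfin
  · rintro p ⟨hp1, hp2⟩
    show aeval (φ p).rep Φ = 0
    simp only [φ, dif_pos (hM p hp2)]
    rw [aeval_def, eval₂_rep_iff hΦ, hΦe, ← hp1, aeval_def, eval₂_wForm]
    rfl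
  · rintro p ⟨hp1, hp2⟩ p' ⟨hp1', hp2'⟩ hpp
    simp only [φ, dif_pos (hM p hp2), dif_pos (hM p' hp2')] at hpp
    rw [Projectivization.mk_eq_mk_iff'] at hpp
    obtain ⟨a, ha⟩ := hpp
    obtain ⟨c, hc⟩ := hp2
    have h1 : ∀ i, a * (p'.rep i * aeval p'.rep (m c)) = p.rep i * aeval p.rep (m c) := by
      intro i
      have h2 := congrFun ha (ρ.symm (c, i))
      simp only [Pi.smul_apply, smul_eq_mul, M, Equiv.apply_symm_apply] at h2
      exact h2
    rw [← p.mk_rep, ← p'.mk_rep, Projectivization.mk_eq_mk_iff']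
    refine ⟨a * aeval p'.rep (m c) / aeval p.rep (m c), ?_⟩
    funext i
    show a * aeval p'.rep (m c) / aeval p.rep (m c) * p'.rep i = p.rep i
    field_simp
    linear_combination h1 i

end arithmetic

/-- The main construction: every projective variety `X` over a number field is contained in a
smooth complete intersection `Y` of bidegrees `(d, 1)`, `(0, h)` in a product of two projective
spaces, such that the hyperbolicity of `Y` is equivalent to the one of `X`, and, if hyperbolic
varieties have finitely many points, the finiteness of the points as well. -/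
theorem exists_total_space {K : Type} [Field K] [NumberField K] {n : ℕ}
    (S : Set (MvPolynomial (Fin (n + 1)) K)) (hS : ∀ G ∈ S, ∃ d, G.IsHomogeneous d) (δ : ℕ) :
    ∃ (d h : ℕ) (F : MvPolynomial (Fin (n + 1) ⊕ Fin (n + 2 + 1)) K)
      (H : MvPolynomial (Fin (n + 2 + 1)) K), δ ≤ d ∧ δ ≤ h ∧ IsBihomogeneous F d 1 ∧
      H.IsHomogeneous h ∧ IsSmoothCI F H ∧
      (∀ σ : K →+* ℂ, KobayashiHyperbolic (complexPoints S σ) ↔
        BiKobayashiHyperbolic (biComplexPoints F H σ)) ∧
      (∀ (L : Type) [Field L] [Algebra K L], (biPoints F H L).Finite → (points S L).Finite) ∧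
      (HypFinite → ∀ (L : Type) [Field L] [NumberField L] [Algebra K L],
        (points S L).Finite → (biPoints F H L).Finite) := by
  classical
  obtain ⟨C, e, m, hm, hmS⟩ := exists_family S hS
  obtain ⟨D, hD⟩ : ∃ D, D = C * (n + 1) + n := ⟨_, rfl⟩
  have hcard : Fintype.card (Fin (D + 1)) = Fintype.card (Fin (C + 1) × Fin (n + 1)) := by
    rw [Fintype.card_prod, Fintype.card_fin, Fintype.card_fin, Fintype.card_fin, hD]
    ring
  let ρ : Fin (D + 1) ≃ Fin (C + 1) × Fin (n + 1) := Fintype.equivOfCardEq hcard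
  obtain ⟨N, hN⟩ : ∃ N, N = D + 3 * ((D + 1) * (D + 1)) := ⟨_, rfl⟩
  obtain ⟨B, hB⟩ : ∃ B, B = n + 1 + (n + (n + 1 + N) + 3 * ((n + 1) * (n + 1))) := ⟨_, rfl⟩
  obtain ⟨k, hk⟩ : ∃ k, k = (B + (n + 1 + N)) * (B + (n + 1 + N) - 2) + N * (N - 2) + δ + 2 :=
    ⟨_, rfl⟩
  obtain ⟨q, hq⟩ : ∃ q, q = n + 2 + (n + 3) + 3 * ((n + 2 + 1) * (n + 2 + 1)) := ⟨_, rfl⟩
  obtain ⟨h, hh⟩ : ∃ h, h = (q + 1 + (n + 3)) * (q + 1 + (n + 3) - 2) + δ + 2 := ⟨_, rfl⟩
  obtain ⟨t, ht⟩ := exists_genPts n B
  obtain ⟨τ, hτ⟩ := exists_genPts D N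
  obtain ⟨s, hs⟩ := exists_genPts (n + 2) (q + 1)
  let r : Fin B → ℚ := fun j => ((j : ℕ) : ℚ)
  have hr : Function.Injective r := fun i j hij => Fin.ext (Nat.cast_injective hij)
  have hk1 : (B + (n + 1 + N)) * (B + (n + 1 + N) - 2) < k := by omega
  have hk2 : N * (N - 2) < k := by omega
  have hh1 : (q + 1 + (n + 3)) * (q + 1 + (n + 3) - 2) < h := by omega
  have hdk : k ≤ (e + 1) * k := Nat.le_mul_of_pos_left k (by omega)
  set d := (e + 1) * k with hd
  have hW : (wForm m ρ τ k).IsHomogeneous d := wForm_homogeneous m hm ρ τ k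
  obtain ⟨ε, hε, hsm⟩ := exists_eps n d h q B (by omega) (by omega) (wForm m ρ τ k) hW s t r
  have hF := totalForm_bihomogeneous n d B (wForm m ρ τ k) hW t r ε
  have hH := baseForm_homogeneous (K := K) n h q s ε
  refine ⟨d, h, totalForm K n d B (wForm m ρ τ k) t r ε, baseForm K n h q s ε, by omega, by omega,
    hF, hH, hsm, ?_, ?_, ?_⟩
  · -- hyperbolicity
    intro σ
    obtain ⟨_, _, _, _, hBi1, hBi2⟩ := exists_segre _ _ hF hH
    rw [← hBi1 σ, hBi2 σ]
    constructor
    · intro hX f g hf hg hY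
      have hgc : ∀ z w, g z = g w := base_curve s hs hq.ge hh1 hε σ hg fun z => (hY z).2
      refine fun z w => ⟨?_, hgc z w⟩
      have hFz : ∀ z, eval₂ σ (Sum.elim (f z).rep (g 0).rep)
          (totalForm K n d B (wForm m ρ τ k) t r ε) = 0 := by
        intro z
        have := (hY z).1
        rwa [hgc z 0] at this
      by_cases hζ : ∃ i : Fin (n + 2), (g 0).rep i.succ ≠ 0
      · exact total_curve m hm ρ τ t r ht hr hB.ge hk1 hε σ (g 0).rep hζ hf hFz z w
      · push Not at hζ
        by_contra hne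
        have hWz : ∀ z, eval₂ σ (f z).rep (wForm m ρ τ k) = 0 := by
          intro z
          have h1 := hFz z
          rw [eval_total_origin m ρ τ t r d ε σ _ _ hζ] at h1
          refine (mul_eq_zero.1 h1).resolve_left (mul_ne_zero ?_ (rep_zero_ne _ hζ))
          exact_mod_cast hε
        have hXf : ∀ y, f y ∈ complexPoints S σ := fun y =>
          (hmS ℂ σ (f y).rep (f y).rep_nonzero).2 fun c =>
            w_curve m hm ρ τ hτ hN.ge hk2 σ hf hWz ⟨z, w, hne⟩ c y
        exact not_kobayashi f hf hXf z w hne hX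
      -- the other direction
    · intro hY
      refine hyperbolic_of_const hS σ fun f hf hX z w => ?_
      refine (hY f (fun _ => origin ℂ (n + 2)) hf ?_ ?_ z w).1
      · intro z₀ _
        refine ⟨fun _ => Pi.single 0 1, analyticAt_const, Eventually.of_forall fun z => ?_⟩
        exact ⟨_, rfl⟩
      · intro z
        refine ⟨?_, ?_⟩
        · show eval₂ σ (Sum.elim (f z).rep (origin ℂ (n + 2)).rep) _ = 0
          rw [eval_total_origin m ρ τ t r d ε σ _ _ (origin_rep ℂ (n + 2)), eval₂_wForm]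
          have h1 := (hmS ℂ σ (f z).rep (f z).rep_nonzero).1 (hX z)
          simp only [h1, mul_zero, zero_mul, Finset.sum_const_zero]
          rw [zero_pow (by omega)]
          simp
        · exact eval_base_origin q h (by omega) s ε σ _ (origin_rep ℂ (n + 2))
  · -- the embedding of `X`
    intro L _ _ hfin
    have : CharZero L := charZero_of_injective_algebraMap (algebraMap K L).injective
    refine Set.Finite.of_injOn (f := fun p => (p, origin L (n + 2))) (t := biPoints _ _ L)
      ?_ ?_ hfin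
    · intro p hp
      refine ⟨?_, ?_⟩
      · show eval₂ (algebraMap K L) (Sum.elim p.rep (origin L (n + 2)).rep) _ = 0
        rw [eval_total_origin m ρ τ t r d ε (algebraMap K L) _ _ (origin_rep L (n + 2)),
          eval₂_wForm]
        have h1 := (hmS L (algebraMap K L) p.rep p.rep_nonzero).1 hp
        simp only [h1, mul_zero, zero_mul, Finset.sum_const_zero]
        rw [zero_pow (by omega)]
        simp
      · exact eval_base_origin q h (by omega) s ε (algebraMap K L) _ (origin_rep L (n + 2))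
    · intro p _ p' _ hpp
      exact (Prod.mk.inj hpp).1
  · -- the rational points of `Y`
    intro hyp L _ _ _ hfin
    have hZ : {ζ : PSpace L (n + 2) | aeval ζ.rep (map (algebraMap K L)
        (baseForm K n h q s ε)) = 0}.Finite := by
      refine finite_of_curves hyp _ (hH.map _) fun σ g hg hX z w => ?_
      refine base_curve s hs hq.ge hh1 hε (σ.comp (algebraMap K L)) hg (fun z => ?_) z w
      rw [← eval₂_map]
      exact hX z
    have hfib : ∀ ζ : PSpace L (n + 2), {p : PSpace L n | aeval (Sum.elim p.rep ζ.rep)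
        (totalForm K n d B (wForm m ρ τ k) t r ε) = 0}.Finite := by
      intro ζ
      by_cases hζ : ∃ i : Fin (n + 2), ζ.rep i.succ ≠ 0
      · have h1 := finite_of_curves hyp (fibreForm (totalForm K n d B (wForm m ρ τ k) t r ε)
          ζ.rep) (fibreForm_homogeneous hF ζ.rep) fun σ f hf hX z w => by
            obtain ⟨i, hi⟩ := hζ
            refine total_curve m hm ρ τ t r ht hr hB.ge hk1 hε (σ.comp (algebraMap K L))
              (fun j => σ (ζ.rep j)) ⟨i, fun h0 => hi (σ.injective (h0.trans (map_zero σ).symm))⟩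
              hf (fun z => ?_) z w
            rw [← eval₂_fibreForm]
            exact hX z
        simp only [aeval_fibreForm] at h1
        exact h1
      · push Not at hζ
        refine (hfin.union (w_points_finite hyp (L := L) m ρ τ hτ hN.ge hk2)).subset ?_
        intro p hp
        have hW0 : aeval p.rep (wForm m ρ τ k) = 0 := by
          have h1 : eval₂ (algebraMap K L) (Sum.elim p.rep ζ.rep)
            (totalForm K n d B (wForm m ρ τ k) t r ε) = 0 := hp
          rw [eval_total_origin m ρ τ t r d ε (algebraMap K L) _ _ hζ] at h1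
          refine (mul_eq_zero.1 h1).resolve_left (mul_ne_zero ?_ (rep_zero_ne _ hζ))
          exact_mod_cast hε
        by_cases hc : ∃ c, aeval p.rep (m c) ≠ 0
        · exact Or.inr ⟨hW0, hc⟩
        · push Not at hc
          exact Or.inl ((hmS L (algebraMap K L) p.rep p.rep_nonzero).2 hc)
    refine (hZ.biUnion fun ζ _ => (hfib ζ).image fun p => (p, ζ)).subset ?_
    rintro ⟨p, ζ⟩ ⟨hp1, hp2⟩
    refine Set.mem_biUnion (x := ζ) ?_ ⟨p, hp1, rfl⟩
    show aeval ζ.rep (map (algebraMap K L) (baseForm K n h q s ε)) = 0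
    rw [aeval_map_algebraMap]
    exact hp2

end Pool.Agent.Work.MP_f82ddf_nt
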