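import Pool.Agent.Work.MP_f82ddf_nt.Defs

/-!
# Lang's equivalence for complete intersections in a product of two projective spaces
-/

open MvPolynomial Topology
open scoped LinearAlgebra.Projectivization ENNReal

namespace Pool.Agent.Work.MP_f82ddf_nt

variable {K : Type*} [Field K] {n b : ℕ}

/-- `F(x, z)` is bihomogeneous of bidegree `(d, e)` in the two groups of variables
`x = (x_0, ..., x_n)` and `z = (z_0, ..., z_b)`. -/
def IsBihomogeneous (F : MvPolynomial (Fin (n + 1) ⊕ Fin (b + 1)) K) (d e : ℕ) : Prop :=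
  ∀ m ∈ F.support, ∑ i, m (Sum.inl i) = d ∧ ∑ j, m (Sum.inr j) = e

/-- `Y(L)`: the points over `L` of the subvariety `Y` of the product of the projective spaces of
dimensions `n` and `b` given by `F(x, z) = 0` and `H(z) = 0`. -/
def biPoints (F : MvPolynomial (Fin (n + 1) ⊕ Fin (b + 1)) K) (H : MvPolynomial (Fin (b + 1)) K)
    (L : Type*) [Field L] [Algebra K L] : Set (PSpace L n × PSpace L b) :=
  {p | aeval (Sum.elim p.1.rep p.2.rep) F = 0 ∧ aeval p.2.rep H = 0}

/-- `Y_σ`: the complex points of the base change of `Y` along `σ`. -/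
def biComplexPoints (F : MvPolynomial (Fin (n + 1) ⊕ Fin (b + 1)) K)
    (H : MvPolynomial (Fin (b + 1)) K) (σ : K →+* ℂ) : Set (PSpace ℂ n × PSpace ℂ b) :=
  {p | eval₂ σ (Sum.elim p.1.rep p.2.rep) F = 0 ∧ eval₂ σ p.2.rep H = 0}

/-- `BiDiscChain Y p q s`: there is a finite chain of holomorphic maps from the open unit disc to
`Y` joining `p` to `q`, of total Poincaré length `s`. -/
inductive BiDiscChain (Y : Set (PSpace ℂ n × PSpace ℂ b)) :
    PSpace ℂ n × PSpace ℂ b → PSpace ℂ n × PSpace ℂ b → ℝ → Prop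
  | refl (p : PSpace ℂ n × PSpace ℂ b) : p ∈ Y → BiDiscChain Y p p 0
  | step (f : ℂ → PSpace ℂ n) (g : ℂ → PSpace ℂ b) (a c : ℂ) (q : PSpace ℂ n × PSpace ℂ b)
      (s : ℝ) :
      HolomorphicOn f (Metric.ball 0 1) → HolomorphicOn g (Metric.ball 0 1) →
      (∀ z ∈ Metric.ball (0 : ℂ) 1, (f z, g z) ∈ Y) →
      a ∈ Metric.ball (0 : ℂ) 1 → c ∈ Metric.ball (0 : ℂ) 1 → BiDiscChain Y (f c, g c) q s →
      BiDiscChain Y (f a, g a) q (poincareDist a c + s)

/-- The Kobayashi pseudodistance of `Y` (infinite if there is no chain of discs). -/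
noncomputable def biKobayashiDist (Y : Set (PSpace ℂ n × PSpace ℂ b))
    (p q : PSpace ℂ n × PSpace ℂ b) : ℝ≥0∞ :=
  ⨅ (s : ℝ) (_ : BiDiscChain Y p q s), ENNReal.ofReal s

/-- `Y` is Kobayashi hyperbolic: the Kobayashi pseudodistance is a distance. -/
def BiKobayashiHyperbolic (Y : Set (PSpace ℂ n × PSpace ℂ b)) : Prop :=
  ∀ p ∈ Y, ∀ q ∈ Y, p ≠ q → 0 < biKobayashiDist Y p q

/-- Lang's equivalence for `Y : F(x, z) = H(z) = 0` and the embedding `σ`. -/
def BiLangEquivalence {K : Type} [Field K] (F : MvPolynomial (Fin (n + 1) ⊕ Fin (b + 1)) K)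
    (H : MvPolynomial (Fin (b + 1)) K) (σ : K →+* ℂ) : Prop :=
  BiKobayashiHyperbolic (biComplexPoints F H σ) ↔
    ∀ (L : Type) [Field L] [Algebra K L] [FiniteDimensional K L], (biPoints F H L).Finite

/-- `Y : F(x, z) = H(z) = 0` is a smooth complete intersection: at every point of `Y` over the
algebraic closure the gradients of `F` and `H` are linearly independent. -/
def IsSmoothCI (F : MvPolynomial (Fin (n + 1) ⊕ Fin (b + 1)) K)
    (H : MvPolynomial (Fin (b + 1)) K) : Prop :=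
  ∀ (x : Fin (n + 1) → AlgebraicClosure K) (z : Fin (b + 1) → AlgebraicClosure K),
    x ≠ 0 → z ≠ 0 → aeval (Sum.elim x z) F = 0 → aeval z H = 0 →
    ∀ α β : AlgebraicClosure K,
      (∀ i, α * aeval (Sum.elim x z) (pderiv (Sum.inl i) F) = 0) →
      (∀ j, α * aeval (Sum.elim x z) (pderiv (Sum.inr j) F) + β * aeval z (pderiv j H) = 0) →
      α = 0 ∧ β = 0

end Pool.Agent.Work.MP_f82ddf_nt
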