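import Pool.Agent.Work.MP_f82ddf_nt.Core

/-!
# A finite family of forms of the same degree with a given zero set
-/

open MvPolynomial
open scoped LinearAlgebra.Projectivization

namespace Pool.Agent.Work.MP_f82ddf_nt

/-- A projective variety is given by finitely many forms of the same degree. -/
theorem exists_family {K : Type*} [Field K] {n : ℕ} (S : Set (MvPolynomial (Fin (n + 1)) K))
    (hS : ∀ G ∈ S, ∃ d, G.IsHomogeneous d) :
    ∃ (C e : ℕ) (m : Fin (C + 1) → MvPolynomial (Fin (n + 1)) K),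
      (∀ c, (m c).IsHomogeneous e) ∧
      ∀ (R : Type) [Field R] (σ : K →+* R) (x : Fin (n + 1) → R), x ≠ 0 →
        ((∀ G ∈ S, eval₂ σ x G = 0) ↔ ∀ c, eval₂ σ x (m c) = 0) := by
  classical
  obtain ⟨S', hS'S, hspan⟩ := (Submodule.fg_span_iff_fg_span_finset_subset S).1
    (IsNoetherian.noetherian (Submodule.span (MvPolynomial (Fin (n + 1)) K) S))
  choose! d hd using hS
  set e : ℕ := S'.sup d with he
  have hde : ∀ G ∈ S', d G ≤ e := fun G hG => Finset.le_sup hG
  -- vanishing on the finite subset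
  have hfin : ∀ (R : Type) [Field R] (σ : K →+* R) (x : Fin (n + 1) → R),
      (∀ G ∈ S, eval₂ σ x G = 0) ↔ ∀ G ∈ S', eval₂ σ x G = 0 := by
    intro R _ σ x
    refine ⟨fun h G hG => h G (hS'S hG), fun h G hG => ?_⟩
    have h1 : G ∈ Submodule.span (MvPolynomial (Fin (n + 1)) K) (S' : Set _) := by
      rw [← hspan]
      exact Submodule.subset_span hG
    refine Submodule.span_induction (p := fun G _ => eval₂ σ x G = 0) ?_ ?_ ?_ ?_ h1
    · intro G hG
      exact h G hG
    · exact eval₂_zero _ _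
    · intro G G' _ _ h1 h2
      rw [eval₂_add, h1, h2, add_zero]
    · intro a G _ h1
      rw [smul_eq_mul, eval₂_mul, h1, mul_zero]
  let ι := Option (S' × Fin (n + 1))
  let m₀ : ι → MvPolynomial (Fin (n + 1)) K := fun o =>
    o.elim 0 fun p => X p.2 ^ (e - d p.1) * (p.1 : MvPolynomial (Fin (n + 1)) K)
  obtain ⟨C, hC⟩ : ∃ C, Fintype.card ι = C + 1 :=
    ⟨Fintype.card (S' × Fin (n + 1)), Fintype.card_option⟩
  let ρ : Fin (C + 1) ≃ ι := (Fintype.equivFinOfCardEq hC).symm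
  have hom : ∀ o : ι, (m₀ o).IsHomogeneous e := by
    rintro (_ | p)
    · exact isHomogeneous_zero _ _ _
    · show (X p.2 ^ (e - d p.1) * (p.1 : MvPolynomial (Fin (n + 1)) K)).IsHomogeneous e
      have h1 := (isHomogeneous_X_pow (R := K) p.2 (e - d p.1)).mul (hd _ (hS'S p.1.2))
      have h2 : e - d p.1 + d p.1 = e := Nat.sub_add_cancel (hde _ p.1.2)
      rwa [h2] at h1
  refine ⟨C, e, fun c => m₀ (ρ c), fun c => hom (ρ c), ?_⟩
  intro R _ σ x hx
  rw [hfin R σ x]
  obtain ⟨j, hj⟩ : ∃ j, x j ≠ 0 := by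
    by_contra hcon
    push Not at hcon
    exact hx (funext hcon)
  have hev : ∀ G (hG : G ∈ S') (i : Fin (n + 1)), eval₂ σ x (m₀ (some (⟨G, hG⟩, i))) =
      x i ^ (e - d G) * eval₂ σ x G := by
    intro G hG i
    show eval₂ σ x (X i ^ (e - d G) * G) = _
    rw [eval₂_mul, eval₂_pow, eval₂_X]
  constructor
  · intro h c
    show eval₂ σ x (m₀ (ρ c)) = 0
    generalize ρ c = o
    rcases o with _ | ⟨⟨G, hG⟩, i⟩
    · exact eval₂_zero _ _
    · rw [hev, h G hG, mul_zero]
  · intro h G hG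
    have h1 : eval₂ σ x (m₀ (ρ (ρ.symm (some (⟨G, hG⟩, j))))) = 0 := h _
    rw [Equiv.apply_symm_apply, hev] at h1
    exact (mul_eq_zero.1 h1).resolve_left (pow_ne_zero _ hj)

end Pool.Agent.Work.MP_f82ddf_nt
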