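import Pool.Agent.Work.MP_f82ddf_nt.Red.Pad
import Pool.Agent.Work.MP_f82ddf_nt.Red.Assemble

/-!
# The reduction theorem
-/

open MvPolynomial

namespace Pool.Agent.Work.MP_f82ddf_nt

/-- Lang's equivalence for all projective varieties over number fields follows from its special
case of smooth complete intersections of bidegrees `(d, 1)` and `(0, h)` in the product of the
projective spaces of dimensions `n` and `n + 2`, and conversely. -/
theorem lang_reduction (n₀ : ℕ) (δ : ℕ → ℕ) :
    (∀ (K : Type) [Field K] [NumberField K] (n d h : ℕ)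
      (F : MvPolynomial (Fin (n + 1) ⊕ Fin (n + 2 + 1)) K)
      (H : MvPolynomial (Fin (n + 2 + 1)) K) (σ : K →+* ℂ),
      n₀ ≤ n → δ n ≤ d → δ n ≤ h → IsBihomogeneous F d 1 → H.IsHomogeneous h →
      IsSmoothCI F H → BiLangEquivalence F H σ) ↔
    ∀ (K : Type) [Field K] [NumberField K] (n : ℕ)
      (S : Set (MvPolynomial (Fin (n + 1)) K)) (σ : K →+* ℂ),
      (∀ G ∈ S, ∃ d, G.IsHomogeneous d) → LangEquivalence S σ := by
  constructor
  · intro hC
    have key : ∀ (K : Type) [Field K] [NumberField K] (n : ℕ)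
        (S : Set (MvPolynomial (Fin (n + 1)) K)) (σ : K →+* ℂ),
        (∀ G ∈ S, ∃ d, G.IsHomogeneous d) → KobayashiHyperbolic (complexPoints S σ) →
        ∀ (L : Type) [Field L] [Algebra K L] [FiniteDimensional K L], (points S L).Finite := by
      intro K _ _ n S σ hS hX L _ _ _
      obtain ⟨n', S', hn', hS', hpts, hyp⟩ := exists_pad n₀ S hS
      obtain ⟨d, h, F, H, hd, hh, hF, hH, hsm, hkob, hfin, -⟩ :=
        exists_total_space S' hS' (δ n')
      have h1 : BiKobayashiHyperbolic (biComplexPoints F H σ) := (hkob σ).1 ((hyp σ).2 hX)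
      exact (hpts L).1 (hfin L ((hC K n' d h F H σ hn' hd hh hF hH hsm).1 h1 L))
    have hyp0 : HypFinite := fun K _ _ n S σ hS hX => key K n S σ hS hX K
    intro K _ _ n S σ hS
    refine ⟨key K n S σ hS, fun hX => ?_⟩
    obtain ⟨n', S', hn', hS', hpts, hyp⟩ := exists_pad n₀ S hS
    obtain ⟨d, h, F, H, hd, hh, hF, hH, hsm, hkob, -, hfin⟩ :=
      exists_total_space S' hS' (δ n')
    refine (hyp σ).1 ((hkob σ).2 ((hC K n' d h F H σ hn' hd hh hF hH hsm).2 ?_))
    intro L _ _ _
    have : NumberField L := NumberField.of_module_finite K L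
    exact hfin hyp0 L ((hpts L).2 (hX L))
  · intro hC K _ _ n d h F H σ _ _ _ hF hH _
    obtain ⟨N, S, hS, hpts, hkob, -⟩ := exists_segre F H hF hH
    refine (hkob σ).symm.trans ((hC K N S σ hS).trans ?_)
    exact forall_congr' fun L => forall_congr' fun _ => forall_congr' fun _ =>
      forall_congr' fun _ => hpts L

end Pool.Agent.Work.MP_f82ddf_nt
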