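import Mathlib

/-!
# Rational numbers in general position
-/

namespace Pool.Agent.Work.MP_f82ddf_nt

/-- General position of rational numbers, for polynomials of degree at most `n`. -/
def GenPts (n q : ℕ) (t : Fin q → ℚ) : Prop :=
  Function.Injective t ∧ ∀ μ : Fin ((n + 1) * (n + 1)) ⊕ Fin ((n + 1) * (n + 1)) → Fin q,
    Function.Injective μ → ∀ ω : Fin (n + 1) → Fin (n + 1) → ℂ,
      (∀ r, ∑ a, ∑ b, ω a b * ((t (μ (Sum.inl r)) : ℂ) ^ (a : ℕ) *
        (t (μ (Sum.inr r)) : ℂ) ^ (b : ℕ)) = 0) → ω = 0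

end Pool.Agent.Work.MP_f82ddf_nt
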