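import Pool.Agent.Work.MP_f82ddf_nt.Red.Space

/-!
# Padding a projective variety with zero coordinates
-/

open MvPolynomial Topology Filter Set
open scoped LinearAlgebra.Projectivization ENNReal

namespace Pool.Agent.Work.MP_f82ddf_nt

variable {n : ℕ}

/-- The coordinates of a point, followed by zero. -/
def pad {R : Type*} [Zero R] (x : Fin (n + 1) → R) : Fin (n + 1 + 1) → R := Fin.snoc x 0

theorem pad_castSucc {R : Type*} [Zero R] (x : Fin (n + 1) → R) (i : Fin (n + 1)) :
    pad x i.castSucc = x i := Fin.snoc_castSucc (α := fun _ => R) 0 x i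

theorem pad_last {R : Type*} [Zero R] (x : Fin (n + 1) → R) : pad x (Fin.last (n + 1)) = 0 :=
  Fin.snoc_last (α := fun _ => R) 0 x

theorem pad_ne {R : Type*} [Zero R] {x : Fin (n + 1) → R} (hx : x ≠ 0) : pad x ≠ 0 := by
  intro h
  apply hx
  funext i
  rw [← pad_castSucc x i, h]
  rfl

/-- The equations of the padded variety. -/
def padSet {K : Type*} [Field K] (S : Set (MvPolynomial (Fin (n + 1)) K)) :
    Set (MvPolynomial (Fin (n + 1 + 1)) K) :=
  (rename Fin.castSucc) '' S ∪ {X (Fin.last (n + 1))}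

theorem padSet_homogeneous {K : Type*} [Field K] {S : Set (MvPolynomial (Fin (n + 1)) K)}
    (hS : ∀ G ∈ S, ∃ d, G.IsHomogeneous d) : ∀ G ∈ padSet S, ∃ d, G.IsHomogeneous d := by
  rintro G (⟨G, hG, rfl⟩ | rfl)
  · obtain ⟨d, hd⟩ := hS G hG
    exact ⟨d, hd.rename_isHomogeneous⟩
  · exact ⟨1, isHomogeneous_X _ _⟩

theorem eval₂_padSet {K R : Type*} [Field K] [Field R] (S : Set (MvPolynomial (Fin (n + 1)) K))
    (σ : K →+* R) (y : Fin (n + 1 + 1) → R) :
    (∀ G ∈ padSet S, eval₂ σ y G = 0) ↔
      y (Fin.last (n + 1)) = 0 ∧ ∀ G ∈ S, eval₂ σ (fun i => y (Fin.castSucc i)) G = 0 := by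
  constructor
  · intro h
    refine ⟨?_, fun G hG => ?_⟩
    · have := h _ (Or.inr rfl)
      rwa [eval₂_X] at this
    · have := h _ (Or.inl ⟨G, hG, rfl⟩)
      rwa [eval₂_rename] at this
  · rintro ⟨h1, h2⟩ G (⟨G, hG, rfl⟩ | rfl)
    · rw [eval₂_rename]
      exact h2 G hG
    · rwa [eval₂_X]

/-- The embedding of projective spaces. -/
noncomputable def padPt {R : Type*} [Field R] (p : PSpace R n) : PSpace R (n + 1) :=
  Projectivization.mk R (pad p.rep) (pad_ne p.rep_nonzero)

theorem padPt_mk {R : Type*} [Field R] (x : Fin (n + 1) → R) (hx : x ≠ 0) :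
    padPt (Projectivization.mk R x hx) = Projectivization.mk R (pad x) (pad_ne hx) := by
  unfold padPt
  rw [Projectivization.mk_eq_mk_iff']
  obtain ⟨a, ha⟩ := Projectivization.exists_smul_eq_mk_rep R x hx
  refine ⟨a, ?_⟩
  funext i
  rw [← ha]
  refine Fin.lastCases ?_ (fun i => ?_) i
  · show (a : R) * pad x (Fin.last (n + 1)) = _
    rw [pad_last, pad_last, mul_zero]
  · show (a : R) * pad x i.castSucc = _
    rw [pad_castSucc, pad_castSucc]
    rfl

theorem padPt_injective {R : Type*} [Field R] : Function.Injective (padPt (R := R) (n := n)) := by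
  intro p p' h
  unfold padPt at h
  rw [Projectivization.mk_eq_mk_iff'] at h
  obtain ⟨a, ha⟩ := h
  rw [← p.mk_rep, ← p'.mk_rep, Projectivization.mk_eq_mk_iff']
  refine ⟨a, ?_⟩
  funext i
  have := congrFun ha i.castSucc
  rw [pad_castSucc] at this
  rw [← this]
  show a * p'.rep i = a * pad p'.rep i.castSucc
  rw [pad_castSucc]

/-- A point with last coordinate zero comes from the smaller space. -/
theorem exists_padPt {R : Type*} [Field R] (p : PSpace R (n + 1))
    (h : p.rep (Fin.last (n + 1)) = 0) :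
    ∃ hx : (fun i : Fin (n + 1) => p.rep i.castSucc) ≠ 0,
      padPt (Projectivization.mk R (fun i : Fin (n + 1) => p.rep i.castSucc) hx) = p := by
  have hp : pad (fun i : Fin (n + 1) => p.rep i.castSucc) = p.rep := by
    funext i
    refine Fin.lastCases ?_ (fun i => ?_) i
    · rw [pad_last, h]
    · rw [pad_castSucc]
  have hx : (fun i : Fin (n + 1) => p.rep i.castSucc) ≠ 0 := by
    intro h0
    apply p.rep_nonzero
    rw [← hp, h0]
    funext i
    refine Fin.lastCases ?_ (fun i => ?_) i
    · rw [pad_last]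
      rfl
    · rw [pad_castSucc]
      rfl
  refine ⟨hx, ?_⟩
  rw [padPt_mk]
  conv_rhs => rw [← p.mk_rep]
  rw [Projectivization.mk_eq_mk_iff']
  exact ⟨1, by rw [one_smul, hp]⟩

theorem padPt_mem {K R : Type*} [Field K] [Field R] (σ : K →+* R)
    {S : Set (MvPolynomial (Fin (n + 1)) K)} (hS : ∀ G ∈ S, ∃ d, G.IsHomogeneous d)
    (p : PSpace R n) : (∀ G ∈ padSet S, eval₂ σ (padPt p).rep G = 0) ↔
      ∀ G ∈ S, eval₂ σ p.rep G = 0 := by
  have h1 : (∀ G ∈ padSet S, eval₂ σ (padPt p).rep G = 0) ↔
      ∀ G ∈ padSet S, eval₂ σ (pad p.rep) G = 0 := by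
    refine forall₂_congr fun G hG => ?_
    obtain ⟨d, hd⟩ := padSet_homogeneous hS G hG
    exact eval₂_rep_iff hd σ _ _
  rw [h1, eval₂_padSet]
  simp only [pad_last, pad_castSucc, true_and]

theorem pad_points_finite {K : Type} [Field K] {S : Set (MvPolynomial (Fin (n + 1)) K)}
    (hS : ∀ G ∈ S, ∃ d, G.IsHomogeneous d) (L : Type) [Field L] [Algebra K L] :
    (points (padSet S) L).Finite ↔ (points S L).Finite := by
  constructor
  · intro h
    refine Set.Finite.of_injOn (f := padPt) (t := points (padSet S) L) ?_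
      padPt_injective.injOn h
    intro p hp
    exact (padPt_mem (algebraMap K L) hS p).2 hp
  · intro h
    refine (h.image padPt).subset ?_
    intro p hp
    have h1 := (eval₂_padSet S (algebraMap K L) p.rep).1 hp
    obtain ⟨hx, hx'⟩ := exists_padPt p h1.1
    refine ⟨_, ?_, hx'⟩
    refine (padPt_mem (algebraMap K L) hS _).1 ?_
    rw [hx']
    exact hp

theorem pad_hyperbolic {K : Type} [Field K] {S : Set (MvPolynomial (Fin (n + 1)) K)}
    (hS : ∀ G ∈ S, ∃ d, G.IsHomogeneous d) (σ : K →+* ℂ) :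
    KobayashiHyperbolic (complexPoints (padSet S) σ) ↔
      KobayashiHyperbolic (complexPoints S σ) := by
  rw [hyperbolic_iff_const hS, hyperbolic_iff_const (padSet_homogeneous hS)]
  constructor
  · intro h f hf hX z w
    refine padPt_injective (h (fun z => padPt (f z)) ?_ ?_ z w)
    · intro z₀ hz₀
      obtain ⟨g, hg, hg'⟩ := hf z₀ hz₀
      refine ⟨fun z => pad (g z), ?_, ?_⟩
      · rw [analyticAt_pi_iff]
        intro i
        refine Fin.lastCases ?_ (fun i => ?_) i
        · simp only [pad_last]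
          exact analyticAt_const
        · simp only [pad_castSucc]
          exact (analyticAt_pi_iff.1 hg) i
      · filter_upwards [hg'] with z hz
        obtain ⟨h1, h2⟩ := hz
        exact ⟨pad_ne h1, by rw [h2, padPt_mk]⟩
    · intro z
      exact (padPt_mem σ hS (f z)).2 (hX z)
  · intro h f hf hX z w
    have hlast : ∀ z, (f z).rep (Fin.last (n + 1)) = 0 := fun z =>
      ((eval₂_padSet S σ (f z).rep).1 (hX z)).1
    choose hx hx' using fun z => exists_padPt (f z) (hlast z)
    have h1 := h (fun z => Projectivization.mk ℂ _ (hx z)) ?_ ?_ z w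
    · have h2 := congrArg padPt h1
      simp only [hx'] at h2
      exact h2
    · intro z₀ hz₀
      obtain ⟨g, hg, hg'⟩ := hf z₀ hz₀
      refine ⟨fun z i => g z (Fin.castSucc i), ?_, ?_⟩
      · rw [analyticAt_pi_iff]
        intro i
        exact (analyticAt_pi_iff.1 hg) _
      · filter_upwards [hg'] with z hz
        obtain ⟨h1, h2⟩ := hz
        obtain ⟨a, ha⟩ := Projectivization.exists_smul_eq_mk_rep ℂ (g z) h1
        have h3 : (f z).rep = (a : ℂ) • g z := by
          rw [h2, ← ha]
          rfl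
        have h4 : (fun i : Fin (n + 1) => g z (Fin.castSucc i)) ≠ 0 := by
          intro h0
          apply hx z
          funext i
          show (f z).rep i.castSucc = 0
          rw [h3]
          show (a : ℂ) * g z i.castSucc = 0
          rw [show g z i.castSucc = 0 from congrFun h0 i, mul_zero]
        refine ⟨h4, ?_⟩
        rw [Projectivization.mk_eq_mk_iff']
        refine ⟨a, ?_⟩
        funext i
        show (a : ℂ) * g z i.castSucc = (f z).rep i.castSucc
        rw [h3]
        rfl
    · intro z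
      refine (padPt_mem σ hS _).1 ?_
      rw [hx']
      exact hX z

/-- Every projective variety may be embedded in projective spaces of large dimension. -/
theorem exists_pad {K : Type} [Field K] (n₀ : ℕ) {n : ℕ}
    (S : Set (MvPolynomial (Fin (n + 1)) K)) (hS : ∀ G ∈ S, ∃ d, G.IsHomogeneous d) :
    ∃ (n' : ℕ) (S' : Set (MvPolynomial (Fin (n' + 1)) K)), n₀ ≤ n' ∧
      (∀ G ∈ S', ∃ d, G.IsHomogeneous d) ∧
      (∀ (L : Type) [Field L] [Algebra K L], (points S' L).Finite ↔ (points S L).Finite) ∧
      ∀ σ : K →+* ℂ, KobayashiHyperbolic (complexPoints S' σ) ↔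
        KobayashiHyperbolic (complexPoints S σ) := by
  induction n₀ with
  | zero => exact ⟨n, S, Nat.zero_le _, hS, fun _ _ _ => Iff.rfl, fun _ => Iff.rfl⟩
  | succ n₀ ih =>
    obtain ⟨n', S', h1, h2, h3, h4⟩ := ih
    exact ⟨n' + 1, padSet S', by omega, padSet_homogeneous h2,
      fun L _ _ => (pad_points_finite h2 L).trans (h3 L),
      fun σ => (pad_hyperbolic h2 σ).trans (h4 σ)⟩

end Pool.Agent.Work.MP_f82ddf_nt
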