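import Pool.Agent.Work.MP_f82ddf_nt.Red.Defs
import Pool.Agent.Work.MP_f82ddf_nt.Core

/-!
# The explicit forms, and smoothness for small parameters
-/

open MvPolynomial Topology Filter
open scoped LinearAlgebra.Projectivization ENNReal

namespace Pool.Agent.Work.MP_f82ddf_nt

/-! ### Bihomogeneous polynomials -/

section bihom

variable {K : Type*} [Field K] {n b : ℕ}

/-- The bidegrees of the variables. -/
def biw (n b : ℕ) : Fin (n + 1) ⊕ Fin (b + 1) → ℕ × ℕ := Sum.elim (fun _ => (1, 0)) fun _ => (0, 1)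

theorem weight_biw (m : Fin (n + 1) ⊕ Fin (b + 1) →₀ ℕ) :
    Finsupp.weight (biw n b) m = (∑ i, m (Sum.inl i), ∑ j, m (Sum.inr j)) := by
  rw [Finsupp.weight_apply, Finsupp.sum_fintype (h := fun i => by simp),
    Fintype.sum_sum_type]
  simp only [biw, Sum.elim_inl, Sum.elim_inr, Prod.smul_mk, smul_eq_mul, mul_one, mul_zero]
  refine Prod.ext ?_ ?_
  · rw [Prod.fst_add, Prod.fst_sum, Prod.fst_sum]
    simp
  · rw [Prod.snd_add, Prod.snd_sum, Prod.snd_sum]
    simp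

theorem isBihomogeneous_iff (F : MvPolynomial (Fin (n + 1) ⊕ Fin (b + 1)) K) (d e : ℕ) :
    IsBihomogeneous F d e ↔ F.IsWeightedHomogeneous (biw n b) (d, e) := by
  unfold IsBihomogeneous IsWeightedHomogeneous
  constructor
  · intro h m hm
    obtain ⟨h1, h2⟩ := h m (mem_support_iff.2 hm)
    rw [weight_biw, h1, h2]
  · intro h m hm
    have h1 := h (mem_support_iff.1 hm)
    rw [weight_biw] at h1
    exact Prod.mk.inj h1

theorem bihom_rename_inl {W : MvPolynomial (Fin (n + 1)) K} {d : ℕ} (hW : W.IsHomogeneous d) :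
    (rename Sum.inl W : MvPolynomial (Fin (n + 1) ⊕ Fin (b + 1)) K).IsWeightedHomogeneous
      (biw n b) (d, 0) := by
  rw [show (rename Sum.inl W : MvPolynomial (Fin (n + 1) ⊕ Fin (b + 1)) K) =
    ∑ m ∈ W.support, rename Sum.inl (monomial m (coeff m W)) by
      conv_lhs => rw [W.as_sum, map_sum]]
  apply IsWeightedHomogeneous.sum
  intro m hm
  rw [rename_monomial]
  apply isWeightedHomogeneous_monomial
  rw [weight_biw]
  have h1 : ∑ i, m i = d := by
    have := hW (mem_support_iff.1 hm)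
    rw [← this, Finsupp.weight_apply, Finsupp.sum_fintype (h := fun i => by simp)]
    simp
  have e1 : ∑ i, (Finsupp.mapDomain Sum.inl m : Fin (n + 1) ⊕ Fin (b + 1) →₀ ℕ) (Sum.inl i) = d := by
    simp only [Finsupp.mapDomain_apply Sum.inl_injective]
    exact h1
  have e2 : ∑ j, (Finsupp.mapDomain Sum.inl m : Fin (n + 1) ⊕ Fin (b + 1) →₀ ℕ) (Sum.inr j) = 0 := by
    refine Finset.sum_eq_zero fun j _ => ?_
    apply Finsupp.mapDomain_of_notMem_range
    simp
  rw [e1, e2]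

theorem bihom_rename_inr {W : MvPolynomial (Fin (b + 1)) K} {d : ℕ} (hW : W.IsHomogeneous d) :
    (rename Sum.inr W : MvPolynomial (Fin (n + 1) ⊕ Fin (b + 1)) K).IsWeightedHomogeneous
      (biw n b) (0, d) := by
  rw [show (rename Sum.inr W : MvPolynomial (Fin (n + 1) ⊕ Fin (b + 1)) K) =
    ∑ m ∈ W.support, rename Sum.inr (monomial m (coeff m W)) by
      conv_lhs => rw [W.as_sum, map_sum]]
  apply IsWeightedHomogeneous.sum
  intro m hm
  rw [rename_monomial]
  apply isWeightedHomogeneous_monomial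
  rw [weight_biw]
  have h1 : ∑ i, m i = d := by
    have := hW (mem_support_iff.1 hm)
    rw [← this, Finsupp.weight_apply, Finsupp.sum_fintype (h := fun i => by simp)]
    simp
  have e2 : ∑ i, (Finsupp.mapDomain Sum.inr m : Fin (n + 1) ⊕ Fin (b + 1) →₀ ℕ) (Sum.inr i) = d := by
    simp only [Finsupp.mapDomain_apply Sum.inr_injective]
    exact h1
  have e1 : ∑ j, (Finsupp.mapDomain Sum.inr m : Fin (n + 1) ⊕ Fin (b + 1) →₀ ℕ) (Sum.inl j) = 0 := by
    refine Finset.sum_eq_zero fun j _ => ?_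
    apply Finsupp.mapDomain_of_notMem_range
    simp
  rw [e1, e2]

/-- Scaling of the two groups of variables. -/
theorem eval₂_biscale {R : Type*} [Field R] (σ : K →+* R)
    {F : MvPolynomial (Fin (n + 1) ⊕ Fin (b + 1)) K} {d e : ℕ}
    (hF : F.IsWeightedHomogeneous (biw n b) (d, e)) (x : Fin (n + 1) → R) (z : Fin (b + 1) → R)
    (a c : R) : eval₂ σ (Sum.elim (a • x) (c • z)) F =
      a ^ d * c ^ e * eval₂ σ (Sum.elim x z) F := by
  rw [eval₂_eq', eval₂_eq', Finset.mul_sum]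
  refine Finset.sum_congr rfl fun m hm => ?_
  have h1 := hF (mem_support_iff.1 hm)
  rw [weight_biw] at h1
  obtain ⟨h2, h3⟩ := Prod.mk.inj h1
  rw [Fintype.prod_sum_type, Fintype.prod_sum_type]
  simp only [Sum.elim_inl, Sum.elim_inr, Pi.smul_apply, smul_eq_mul, mul_pow,
    Finset.prod_mul_distrib]
  rw [Finset.prod_pow_eq_pow_sum, Finset.prod_pow_eq_pow_sum, h2, h3]
  ring

end bihom

/-! ### The forms -/

/-- The linear form `∑ x_i t^i`. -/
noncomputable def mform (K : Type*) [Field K] [CharZero K] (n : ℕ) (t : ℚ) :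
    MvPolynomial (Fin (n + 1)) K := ∑ i : Fin (n + 1), C ((t : K) ^ (i : ℕ)) * X i

/-- The linear form `∑_{i ≥ 1} z_i r^(i - 1)`. -/
noncomputable def cform (K : Type*) [Field K] [CharZero K] (b : ℕ) (r : ℚ) :
    MvPolynomial (Fin (b + 1)) K := ∑ i : Fin b, C ((r : K) ^ (i : ℕ)) * X i.succ

/-- `H = z_0^h - (z_0 + z_1)^h + ∑ z_{i+2}^h + ε (∑_{j < q} λ_j(z)^h - q λ_q(z)^h)`. -/
noncomputable def baseForm (K : Type*) [Field K] [CharZero K] (n h q : ℕ) (s : Fin (q + 1) → ℚ)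
    (ε : ℚ) : MvPolynomial (Fin (n + 2 + 1)) K :=
  X 0 ^ h - (X 0 + X 1) ^ h + ∑ i : Fin (n + 1), X i.succ.succ ^ h +
    C (ε : K) * (∑ j : Fin q, mform K (n + 2) (s j.castSucc) ^ h -
      C (q : K) * mform K (n + 2) (s (Fin.last q)) ^ h)

/-- `F = ∑ z_{i+2} x_i^d + ε (z_0 W(x) + ∑_j c_j(z) ℓ_j(x)^d)`. -/
noncomputable def totalForm (K : Type*) [Field K] [CharZero K] (n d B : ℕ)
    (W : MvPolynomial (Fin (n + 1)) K) (t r : Fin B → ℚ) (ε : ℚ) :
    MvPolynomial (Fin (n + 1) ⊕ Fin (n + 2 + 1)) K :=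
  ∑ i : Fin (n + 1), X (Sum.inr i.succ.succ) * X (Sum.inl i) ^ d +
    C (ε : K) * (X (Sum.inr 0) * rename Sum.inl W +
      ∑ j : Fin B, rename Sum.inr (cform K (n + 2) (r j)) * rename Sum.inl (mform K n (t j) ^ d))

theorem mform_homogeneous {K : Type*} [Field K] [CharZero K] (n : ℕ) (t : ℚ) :
    (mform K n t).IsHomogeneous 1 := by
  apply IsHomogeneous.sum
  intro i _
  have h1 := (isHomogeneous_C (Fin (n + 1)) ((t : K) ^ (i : ℕ))).mul (isHomogeneous_X K i)
  rwa [zero_add] at h1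

theorem cform_homogeneous {K : Type*} [Field K] [CharZero K] (b : ℕ) (r : ℚ) :
    (cform K b r).IsHomogeneous 1 := by
  apply IsHomogeneous.sum
  intro i _
  have h1 := (isHomogeneous_C (Fin (b + 1)) ((r : K) ^ (i : ℕ))).mul (isHomogeneous_X K i.succ)
  rwa [zero_add] at h1

/-- The part of `H` which is multiplied by `ε`. -/
noncomputable def baseForm' (K : Type*) [Field K] [CharZero K] (n h q : ℕ)
    (s : Fin (q + 1) → ℚ) : MvPolynomial (Fin (n + 2 + 1)) K :=
  ∑ j : Fin q, mform K (n + 2) (s j.castSucc) ^ h -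
      C (q : K) * mform K (n + 2) (s (Fin.last q)) ^ h

/-- The special fibre of `H`. -/
noncomputable def baseForm₀ (K : Type*) [Field K] (n h : ℕ) : MvPolynomial (Fin (n + 2 + 1)) K :=
  X 0 ^ h - (X 0 + X 1) ^ h + ∑ i : Fin (n + 1), X i.succ.succ ^ h

theorem baseForm_eq (K : Type*) [Field K] [CharZero K] (n h q : ℕ) (s : Fin (q + 1) → ℚ)
    (ε : ℚ) : baseForm K n h q s ε = baseForm₀ K n h + C (ε : K) * baseForm' K n h q s := rfl

/-- The part of `F` which is multiplied by `ε`. -/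
noncomputable def totalForm' (K : Type*) [Field K] [CharZero K] (n d B : ℕ)
    (W : MvPolynomial (Fin (n + 1)) K) (t r : Fin B → ℚ) :
    MvPolynomial (Fin (n + 1) ⊕ Fin (n + 2 + 1)) K :=
  X (Sum.inr 0) * rename Sum.inl W +
      ∑ j : Fin B, rename Sum.inr (cform K (n + 2) (r j)) * rename Sum.inl (mform K n (t j) ^ d)

/-- The special fibre of `F`. -/
noncomputable def totalForm₀ (K : Type*) [Field K] (n d : ℕ) :
    MvPolynomial (Fin (n + 1) ⊕ Fin (n + 2 + 1)) K :=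
  ∑ i : Fin (n + 1), X (Sum.inr i.succ.succ) * X (Sum.inl i) ^ d

theorem totalForm_eq (K : Type*) [Field K] [CharZero K] (n d B : ℕ)
    (W : MvPolynomial (Fin (n + 1)) K) (t r : Fin B → ℚ) (ε : ℚ) :
    totalForm K n d B W t r ε = totalForm₀ K n d + C (ε : K) * totalForm' K n d B W t r := rfl

theorem pow_hom {K : Type*} [Field K] {m : ℕ} {P : MvPolynomial (Fin m) K}
    (hP : P.IsHomogeneous 1) (h : ℕ) : (P ^ h).IsHomogeneous h := by
  have := hP.pow h
  rwa [one_mul] at this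

theorem baseForm₀_homogeneous {K : Type*} [Field K] (n h : ℕ) :
    (baseForm₀ K n h).IsHomogeneous h := by
  refine ((pow_hom (isHomogeneous_X _ _) h).sub (pow_hom ((isHomogeneous_X _ _).add
    (isHomogeneous_X _ _)) h)).add (IsHomogeneous.sum _ _ _ fun i _ =>
      pow_hom (isHomogeneous_X _ _) h)

theorem baseForm'_homogeneous {K : Type*} [Field K] [CharZero K] (n h q : ℕ)
    (s : Fin (q + 1) → ℚ) : (baseForm' K n h q s).IsHomogeneous h := by
  refine (IsHomogeneous.sum _ _ _ fun j _ => pow_hom (mform_homogeneous _ _) h).sub ?_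
  have h1 := (isHomogeneous_C (Fin (n + 2 + 1)) (q : K)).mul
    (pow_hom (mform_homogeneous (K := K) (n + 2) (s (Fin.last q))) h)
  rwa [zero_add] at h1

theorem baseForm_homogeneous {K : Type*} [Field K] [CharZero K] (n h q : ℕ)
    (s : Fin (q + 1) → ℚ) (ε : ℚ) : (baseForm K n h q s ε).IsHomogeneous h := by
  rw [baseForm_eq]
  refine (baseForm₀_homogeneous n h).add ?_
  have h1 := (isHomogeneous_C (Fin (n + 2 + 1)) (ε : K)).mul
    (baseForm'_homogeneous (K := K) n h q s)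
  rwa [zero_add] at h1

theorem totalForm₀_bihomogeneous {K : Type*} [Field K] (n d : ℕ) :
    (totalForm₀ K n d).IsWeightedHomogeneous (biw n (n + 2)) (d, 1) := by
  apply IsWeightedHomogeneous.sum
  intro i _
  have h1 := (isWeightedHomogeneous_X K (biw n (n + 2)) (Sum.inr i.succ.succ)).mul
    ((isWeightedHomogeneous_X K (biw n (n + 2)) (Sum.inl i)).pow d)
  have h2 : biw n (n + 2) (Sum.inr i.succ.succ) + d • biw n (n + 2) (Sum.inl i) = (d, 1) := by
    simp [biw]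
  rwa [h2] at h1

theorem totalForm'_bihomogeneous {K : Type*} [Field K] [CharZero K] (n d B : ℕ)
    (W : MvPolynomial (Fin (n + 1)) K) (hW : W.IsHomogeneous d) (t r : Fin B → ℚ) :
    (totalForm' K n d B W t r).IsWeightedHomogeneous (biw n (n + 2)) (d, 1) := by
  refine IsWeightedHomogeneous.add ?_ ?_
  · have h1 := (isWeightedHomogeneous_X K (biw n (n + 2)) (Sum.inr 0)).mul
      (bihom_rename_inl (b := n + 2) hW)
    have h2 : biw n (n + 2) (Sum.inr 0) + (d, 0) = (d, 1) := by simp [biw]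
    rwa [h2] at h1
  · apply IsWeightedHomogeneous.sum
    intro j _
    have h1 := (bihom_rename_inr (n := n) (cform_homogeneous (K := K) (n + 2) (r j))).mul
      (bihom_rename_inl (b := n + 2) (pow_hom (mform_homogeneous (K := K) n (t j)) d))
    have h2 : ((0, 1) : ℕ × ℕ) + (d, 0) = (d, 1) := by simp
    rwa [h2] at h1

theorem totalForm_bihomogeneous {K : Type*} [Field K] [CharZero K] (n d B : ℕ)
    (W : MvPolynomial (Fin (n + 1)) K) (hW : W.IsHomogeneous d) (t r : Fin B → ℚ) (ε : ℚ) :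
    IsBihomogeneous (totalForm K n d B W t r ε) d 1 := by
  rw [isBihomogeneous_iff, totalForm_eq]
  exact (totalForm₀_bihomogeneous n d).add ((totalForm'_bihomogeneous n d B W hW t r).C_mul _)

/-! ### Evaluation -/

theorem eval₂_mform {K R : Type*} [Field K] [CharZero K] [Field R] [CharZero R]
    (σ : K →+* R) (n : ℕ) (t : ℚ) (x : Fin (n + 1) → R) :
    eval₂ σ x (mform K n t) = ∑ i, x i * (t : R) ^ (i : ℕ) := by
  unfold mform
  rw [eval₂_sum]
  refine Finset.sum_congr rfl fun i _ => ?_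
  rw [eval₂_mul, eval₂_C, eval₂_X, map_pow, map_ratCast, mul_comm]

theorem eval₂_cform {K R : Type*} [Field K] [CharZero K] [Field R] [CharZero R]
    (σ : K →+* R) (b : ℕ) (r : ℚ) (z : Fin (b + 1) → R) :
    eval₂ σ z (cform K b r) = ∑ i : Fin b, z i.succ * (r : R) ^ (i : ℕ) := by
  unfold cform
  rw [eval₂_sum]
  refine Finset.sum_congr rfl fun i _ => ?_
  rw [eval₂_mul, eval₂_C, eval₂_X, map_pow, map_ratCast, mul_comm]

/-- Evaluation in any extension ring. -/
theorem eval₂_baseForm {K R : Type*} [Field K] [CharZero K] [Field R] [CharZero R]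
    (σ : K →+* R) (n h q : ℕ) (s : Fin (q + 1) → ℚ) (ε : ℚ) (z : Fin (n + 2 + 1) → R) :
    eval₂ σ z (baseForm K n h q s ε) =
      z 0 ^ h - (z 0 + z 1) ^ h + ∑ i : Fin (n + 1), z i.succ.succ ^ h +
      (ε : R) * (∑ j : Fin q, (∑ i, z i * (s j.castSucc : R) ^ (i : ℕ)) ^ h -
        (q : R) * (∑ i, z i * (s (Fin.last q) : R) ^ (i : ℕ)) ^ h) := by
  unfold baseForm
  have h1 : eval₂ σ z (C (q : K)) = (q : R) := by rw [eval₂_C, map_natCast]
  rw [eval₂_add, eval₂_mul, eval₂_sub (p := ∑ j : Fin q, mform K (n + 2) (s j.castSucc) ^ h),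
    eval₂_mul (q := mform K (n + 2) (s (Fin.last q)) ^ h), h1]
  simp only [eval₂_add, eval₂_sub, eval₂_pow, eval₂_X, eval₂_C, eval₂_sum, eval₂_mform,
    map_ratCast]

theorem eval₂_totalForm {K R : Type*} [Field K] [CharZero K] [Field R] [CharZero R]
    (σ : K →+* R) (n d B : ℕ) (W : MvPolynomial (Fin (n + 1)) K) (t r : Fin B → ℚ) (ε : ℚ)
    (x : Fin (n + 1) → R) (z : Fin (n + 2 + 1) → R) :
    eval₂ σ (Sum.elim x z) (totalForm K n d B W t r ε) =
      ∑ i : Fin (n + 1), z i.succ.succ * x i ^ d +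
      (ε : R) * (z 0 * eval₂ σ x W + ∑ j : Fin B, (∑ i : Fin (n + 2), z i.succ * (r j : R) ^ (i : ℕ)) *
        (∑ i, x i * (t j : R) ^ (i : ℕ)) ^ d) := by
  unfold totalForm
  simp only [eval₂_add, eval₂_mul, eval₂_pow, eval₂_X, eval₂_C, eval₂_sum, map_ratCast,
    eval₂_rename, Sum.elim_inl, Sum.elim_inr, Sum.elim_comp_inl, Sum.elim_comp_inr, map_pow,
    eval₂_mform, eval₂_cform]

/-! ### Smoothness for small parameters -/

section perturb

variable {K : Type*} [Field K] {n b : ℕ}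

theorem eval₂_cont (σ : K →+* ℂ) {ι : Type*} (P : MvPolynomial ι K) :
    Continuous fun v : ι → ℂ => eval₂ σ v P := by
  have h1 : (fun v : ι → ℂ => eval₂ σ v P) = fun v => eval v (map σ P) := by
    funext v
    rw [eval_map]
  rw [h1]
  exact MvPolynomial.continuous_eval _

theorem eval₂_hscale {R : Type*} [Field R] (σ : K →+* R) {P : MvPolynomial (Fin (b + 1)) K}
    {h : ℕ} (hP : P.IsHomogeneous h) (z : Fin (b + 1) → R) (c : R) :
    eval₂ σ (c • z) P = c ^ h * eval₂ σ z P := eval₂_smul_hom hP σ z c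

theorem elim_cont {X : Type*} [TopologicalSpace X] {f : X → Fin (n + 1) → ℂ}
    {g : X → Fin (b + 1) → ℂ} (hf : Continuous f) (hg : Continuous g) :
    Continuous fun p => (Sum.elim (f p) (g p) : Fin (n + 1) ⊕ Fin (b + 1) → ℂ) := by
  refine continuous_pi ?_
  rintro (i | j)
  · exact (continuous_apply i).comp hf
  · exact (continuous_apply j).comp hg

/-- Normalised points and multipliers. -/
abbrev Sph (n b : ℕ) : Type := Metric.sphere (0 : Fin (n + 1) → ℂ) 1 ×
  Metric.sphere (0 : Fin (b + 1) → ℂ) 1 × Metric.sphere (0 : ℂ × ℂ) 1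

/-- The parameters and normalised data with a singularity. -/
def singSet (σ : K →+* ℂ) (F₀ F' : MvPolynomial (Fin (n + 1) ⊕ Fin (b + 1)) K)
    (H₀ H' : MvPolynomial (Fin (b + 1)) K) : Set (ℂ × Sph n b) :=
  {p | (∀ i, p.2.2.2.1.1 * (eval₂ σ (Sum.elim p.2.1.1 p.2.2.1.1) (pderiv (Sum.inl i) F₀) +
      p.1 * eval₂ σ (Sum.elim p.2.1.1 p.2.2.1.1) (pderiv (Sum.inl i) F')) = 0) ∧
    ∀ j, p.2.2.2.1.1 * (eval₂ σ (Sum.elim p.2.1.1 p.2.2.1.1) (pderiv (Sum.inr j) F₀) +
      p.1 * eval₂ σ (Sum.elim p.2.1.1 p.2.2.1.1) (pderiv (Sum.inr j) F')) +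
      p.2.2.2.1.2 * (eval₂ σ p.2.2.1.1 (pderiv j H₀) + p.1 * eval₂ σ p.2.2.1.1 (pderiv j H')) = 0}

theorem singSet_closed (σ : K →+* ℂ) (F₀ F' : MvPolynomial (Fin (n + 1) ⊕ Fin (b + 1)) K)
    (H₀ H' : MvPolynomial (Fin (b + 1)) K) : IsClosed (singSet σ F₀ F' H₀ H') := by
  have c0 : Continuous fun p : ℂ × Sph n b => p.1 := continuous_fst
  have c1 : Continuous fun p : ℂ × Sph n b => (p.2.1.1 : Fin (n + 1) → ℂ) := by fun_prop
  have c2 : Continuous fun p : ℂ × Sph n b => (p.2.2.1.1 : Fin (b + 1) → ℂ) := by fun_prop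
  have c3 : Continuous fun p : ℂ × Sph n b => p.2.2.2.1.1 := by fun_prop
  have c4 : Continuous fun p : ℂ × Sph n b => p.2.2.2.1.2 := by fun_prop
  have c5 : ∀ P : MvPolynomial (Fin (n + 1) ⊕ Fin (b + 1)) K,
      Continuous fun p : ℂ × Sph n b => eval₂ σ (Sum.elim p.2.1.1 p.2.2.1.1) P := fun P =>
    (eval₂_cont σ P).comp (elim_cont c1 c2)
  have c6 : ∀ P : MvPolynomial (Fin (b + 1)) K,
      Continuous fun p : ℂ × Sph n b => eval₂ σ p.2.2.1.1 P := fun P => (eval₂_cont σ P).comp c2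
  unfold singSet
  rw [Set.ofPred_and]
  refine IsClosed.inter ?_ ?_
  · rw [Set.ofPred_forall]
    exact isClosed_iInter fun i => isClosed_eq (c3.mul ((c5 _).add (c0.mul (c5 _))))
      continuous_const
  · rw [Set.ofPred_forall]
    exact isClosed_iInter fun j => isClosed_eq ((c3.mul ((c5 _).add (c0.mul (c5 _)))).add
      (c4.mul ((c6 _).add (c0.mul (c6 _))))) continuous_const

theorem smooth_of_small [NumberField K] (F₀ F' : MvPolynomial (Fin (n + 1) ⊕ Fin (b + 1)) K)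
    (H₀ H' : MvPolynomial (Fin (b + 1)) K) {d h : ℕ} (hd : 1 ≤ d)
    (hF₀ : F₀.IsWeightedHomogeneous (biw n b) (d, 1))
    (hF' : F'.IsWeightedHomogeneous (biw n b) (d, 1)) (hH₀ : H₀.IsHomogeneous h)
    (hH' : H'.IsHomogeneous h)
    (hsm : ∀ (σ : K →+* ℂ) (x : Fin (n + 1) → ℂ) (z : Fin (b + 1) → ℂ), x ≠ 0 → z ≠ 0 →
      ∀ α β : ℂ, (∀ i, α * eval₂ σ (Sum.elim x z) (pderiv (Sum.inl i) F₀) = 0) →
      (∀ j, α * eval₂ σ (Sum.elim x z) (pderiv (Sum.inr j) F₀) +
        β * eval₂ σ z (pderiv j H₀) = 0) → α = 0 ∧ β = 0) :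
    ∃ ε : ℚ, ε ≠ 0 ∧ IsSmoothCI (F₀ + C (ε : K) * F') (H₀ + C (ε : K) * H') := by
  obtain ⟨σ₀⟩ : Nonempty (K →+* ℂ) := inferInstance
  letI : Algebra K ℂ := σ₀.toAlgebra
  obtain ⟨φ⟩ : Nonempty (AlgebraicClosure K →ₐ[K] ℂ) := ⟨IsAlgClosed.lift⟩
  set ψ : AlgebraicClosure K →+* ℂ := φ.toRingHom with hψ
  set σ : K →+* ℂ := ψ.comp (algebraMap K (AlgebraicClosure K)) with hσ
  -- the bad parameters form a closed set
  have hcl : IsClosed (Prod.fst '' singSet σ F₀ F' H₀ H') :=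
    isClosedMap_fst_of_compactSpace _ (singSet_closed σ F₀ F' H₀ H')
  have h0 : (0 : ℂ) ∉ Prod.fst '' singSet σ F₀ F' H₀ H' := by
    rintro ⟨⟨e, x, z, γ⟩, ⟨h1, h2⟩, h3⟩
    simp only at h3
    subst h3
    have hx : (x : Fin (n + 1) → ℂ) ≠ 0 := by
      intro h4
      have h5 := x.2
      rw [h4] at h5
      simp at h5
    have hz : (z : Fin (b + 1) → ℂ) ≠ 0 := by
      intro h4
      have h5 := z.2
      rw [h4] at h5
      simp at h5
    have h4 := hsm σ x z hx hz γ.1.1 γ.1.2 (fun i => by simpa using h1 i)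
      (fun j => by simpa using h2 j)
    have h5 := γ.2
    have h6 : (γ : ℂ × ℂ) = 0 := Prod.ext h4.1 h4.2
    rw [h6] at h5
    simp at h5
  have hnhds : (Prod.fst '' singSet σ F₀ F' H₀ H')ᶜ ∈ 𝓝 (0 : ℂ) :=
    hcl.isOpen_compl.mem_nhds h0
  have hseq : Tendsto (fun m : ℕ => (1 : ℂ) / ((m : ℂ) + 1)) atTop (𝓝 0) :=
    tendsto_one_div_add_atTop_nhds_zero_nat
  obtain ⟨m, hm⟩ := (hseq.eventually hnhds).exists
  refine ⟨1 / ((m : ℚ) + 1), by positivity, ?_⟩
  intro x z hx hz _ _ α β hα hβ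
  by_contra hcon
  apply hm
  -- the point over `ℂ`
  set x' : Fin (n + 1) → ℂ := fun i => ψ (x i) with hx'
  set z' : Fin (b + 1) → ℂ := fun i => ψ (z i) with hz'
  have hx0 : x' ≠ 0 := by
    intro h1
    apply hx
    funext i
    exact (map_eq_zero ψ).1 (congrFun h1 i)
  have hz0 : z' ≠ 0 := by
    intro h1
    apply hz
    funext i
    exact (map_eq_zero ψ).1 (congrFun h1 i)
  have hev : ∀ {ι : Type} (v : ι → AlgebraicClosure K) (P : MvPolynomial ι K),
      eval₂ σ (fun i => ψ (v i)) P = ψ (aeval v P) := by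
    intro ι v P
    rw [aeval_def, hom_eval₂]
  have hel : (fun i => ψ (Sum.elim x z i)) = Sum.elim x' z' := by
    funext i
    rcases i with i | i <;> rfl
  set a : ℂ := ((‖x'‖⁻¹ : ℝ) : ℂ) with ha
  set c : ℂ := ((‖z'‖⁻¹ : ℝ) : ℂ) with hc
  have hxn : ‖x'‖ ≠ 0 := norm_ne_zero_iff.2 hx0
  have hzn : ‖z'‖ ≠ 0 := norm_ne_zero_iff.2 hz0
  have ha0 : a ≠ 0 := by
    rw [ha]
    exact_mod_cast inv_ne_zero hxn
  have hc0 : c ≠ 0 := by
    rw [hc]
    exact_mod_cast inv_ne_zero hzn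
  have hax : ‖a • x'‖ = 1 := by
    rw [norm_smul, ha, Complex.norm_real, norm_inv, norm_norm, inv_mul_cancel₀ hxn]
  have hcz : ‖c • z'‖ = 1 := by
    rw [norm_smul, hc, Complex.norm_real, norm_inv, norm_norm, inv_mul_cancel₀ hzn]
  set γ : ℂ × ℂ := (ψ α * c ^ (h - 1), ψ β * a ^ d) with hγ
  have hγ0 : γ ≠ 0 := by
    intro h1
    rw [hγ, Prod.mk_eq_zero] at h1
    apply hcon
    constructor
    · rcases mul_eq_zero.1 h1.1 with h2 | h2
      · exact (map_eq_zero ψ).1 h2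
      · exact absurd h2 (pow_ne_zero _ hc0)
    · rcases mul_eq_zero.1 h1.2 with h2 | h2
      · exact (map_eq_zero ψ).1 h2
      · exact absurd h2 (pow_ne_zero _ ha0)
  have hγn : ‖γ‖ ≠ 0 := norm_ne_zero_iff.2 hγ0
  set e : ℂ := ((‖γ‖⁻¹ : ℝ) : ℂ) with he
  have hγ1 : ‖e • γ‖ = 1 := by
    rw [norm_smul, he, Complex.norm_real, norm_inv, norm_norm, inv_mul_cancel₀ hγn]
  -- scaling of the derivatives
  have hinl : ∀ (P : MvPolynomial (Fin (n + 1) ⊕ Fin (b + 1)) K) (i : Fin (n + 1)),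
      P.IsWeightedHomogeneous (biw n b) (d, 1) →
      eval₂ σ (Sum.elim (a • x') (c • z')) (pderiv (Sum.inl i) P) =
        a ^ (d - 1) * c ^ 1 * ψ (aeval (Sum.elim x z) (pderiv (Sum.inl i) P)) := by
    intro P i hP
    have h1 : (pderiv (Sum.inl i) P).IsWeightedHomogeneous (biw n b) (d - 1, 1) := by
      apply hP.pderiv
      simp only [biw, Sum.elim_inl, Prod.mk_add_mk, add_zero]
      rw [Nat.sub_add_cancel hd]
    rw [eval₂_biscale σ h1, ← hev, hel]
  have hinr : ∀ (P : MvPolynomial (Fin (n + 1) ⊕ Fin (b + 1)) K) (j : Fin (b + 1)),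
      P.IsWeightedHomogeneous (biw n b) (d, 1) →
      eval₂ σ (Sum.elim (a • x') (c • z')) (pderiv (Sum.inr j) P) =
        a ^ d * c ^ 0 * ψ (aeval (Sum.elim x z) (pderiv (Sum.inr j) P)) := by
    intro P j hP
    have h1 : (pderiv (Sum.inr j) P).IsWeightedHomogeneous (biw n b) (d, 0) := by
      apply hP.pderiv
      simp only [biw, Sum.elim_inr, Prod.mk_add_mk, add_zero, zero_add]
    rw [eval₂_biscale σ h1, ← hev, hel]
  have hH : ∀ (P : MvPolynomial (Fin (b + 1)) K) (j : Fin (b + 1)), P.IsHomogeneous h →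
      eval₂ σ (c • z') (pderiv j P) = c ^ (h - 1) * ψ (aeval z (pderiv j P)) := by
    intro P j hP
    rw [eval₂_hscale σ hP.pderiv, ← hev]
  have hεψ : ψ (algebraMap K (AlgebraicClosure K) ((1 / ((m : ℚ) + 1) : ℚ) : K)) =
      (1 : ℂ) / ((m : ℂ) + 1) := by
    rw [map_ratCast, map_ratCast]
    push_cast
    rfl
  have hsplitF : ∀ k, ψ (aeval (Sum.elim x z) (pderiv k (F₀ + C (((1 / ((m : ℚ) + 1) : ℚ)) : K) * F'))) =
      ψ (aeval (Sum.elim x z) (pderiv k F₀)) + (1 : ℂ) / ((m : ℂ) + 1) *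
        ψ (aeval (Sum.elim x z) (pderiv k F')) := by
    intro k
    rw [map_add, pderiv_C_mul, map_add, map_add, map_mul, map_mul, aeval_C, hεψ]
  have hsplitH : ∀ k, ψ (aeval z (pderiv k (H₀ + C (((1 / ((m : ℚ) + 1) : ℚ)) : K) * H'))) =
      ψ (aeval z (pderiv k H₀)) + (1 : ℂ) / ((m : ℂ) + 1) *
        ψ (aeval z (pderiv k H')) := by
    intro k
    rw [map_add, pderiv_C_mul, map_add, map_add, map_mul, map_mul, aeval_C, hεψ]
  refine ⟨⟨(1 : ℂ) / ((m : ℂ) + 1), ⟨a • x', by simpa using hax⟩, ⟨c • z', by simpa using hcz⟩,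
    ⟨e • γ, by simpa using hγ1⟩⟩, ⟨?_, ?_⟩, rfl⟩
  · intro i
    have h1 := congrArg ψ (hα i)
    rw [map_mul, map_zero, hsplitF] at h1
    show (e • γ).1 * (eval₂ σ (Sum.elim (a • x') (c • z')) (pderiv (Sum.inl i) F₀) +
      (1 : ℂ) / ((m : ℂ) + 1) *
        eval₂ σ (Sum.elim (a • x') (c • z')) (pderiv (Sum.inl i) F')) = 0
    rw [hinl F₀ i hF₀, hinl F' i hF']
    have h2 : (e • γ).1 = e * (ψ α * c ^ (h - 1)) := rfl
    rw [h2]
    linear_combination (e * c ^ (h - 1) * a ^ (d - 1) * c ^ 1) * h1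
  · intro j
    have h1 := congrArg ψ (hβ j)
    rw [map_add, map_mul, map_mul, map_zero, hsplitF, hsplitH] at h1
    show (e • γ).1 * (eval₂ σ (Sum.elim (a • x') (c • z')) (pderiv (Sum.inr j) F₀) +
      (1 : ℂ) / ((m : ℂ) + 1) *
        eval₂ σ (Sum.elim (a • x') (c • z')) (pderiv (Sum.inr j) F')) +
      (e • γ).2 * (eval₂ σ (c • z') (pderiv j H₀) +
        (1 : ℂ) / ((m : ℂ) + 1) * eval₂ σ (c • z') (pderiv j H')) = 0
    rw [hinr F₀ j hF₀, hinr F' j hF', hH H₀ j hH₀, hH H' j hH']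
    have h2 : (e • γ).1 = e * (ψ α * c ^ (h - 1)) := rfl
    have h3 : (e • γ).2 = e * (ψ β * a ^ d) := rfl
    rw [h2, h3]
    linear_combination (e * c ^ (h - 1) * a ^ d) * h1

end perturb

/-! ### The special fibre is smooth -/

section special

variable {K : Type*} [Field K] (n d h : ℕ)

theorem pderiv_inl_total₀ (i : Fin (n + 1)) :
    pderiv (Sum.inl i) (totalForm₀ K n d) =
      X (Sum.inr i.succ.succ) * ((d : MvPolynomial (Fin (n + 1) ⊕ Fin (n + 2 + 1)) K) *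
        X (Sum.inl i) ^ (d - 1)) := by
  unfold totalForm₀
  rw [map_sum, Finset.sum_eq_single i]
  · rw [pderiv_mul, pderiv_pow, pderiv_X_self, pderiv_X_of_ne (by simp)]
    ring
  · intro k _ hk
    rw [pderiv_mul, pderiv_pow, pderiv_X_of_ne (by simp), pderiv_X_of_ne (by simpa using hk)]
    ring
  · simp

theorem pderiv_inr_total₀ (i : Fin (n + 1)) :
    pderiv (Sum.inr i.succ.succ) (totalForm₀ K n d) = X (Sum.inl i) ^ d := by
  unfold totalForm₀
  rw [map_sum, Finset.sum_eq_single i]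
  · rw [pderiv_mul, pderiv_pow, pderiv_X_self, pderiv_X_of_ne (by simp)]
    ring
  · intro k _ hk
    rw [pderiv_mul, pderiv_pow, pderiv_X_of_ne (by simpa using hk), pderiv_X_of_ne (by simp)]
    ring
  · simp

theorem pderiv_inr_total₀_low (j : Fin (n + 2 + 1)) (hj : ∀ i : Fin (n + 1), i.succ.succ ≠ j) :
    pderiv (Sum.inr j) (totalForm₀ K n d) = 0 := by
  unfold totalForm₀
  rw [map_sum]
  refine Finset.sum_eq_zero fun k _ => ?_
  rw [pderiv_mul, pderiv_pow, pderiv_X_of_ne (by simpa using hj k), pderiv_X_of_ne (by simp)]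
  ring

theorem pderiv_base₀ (i : Fin (n + 1)) :
    pderiv i.succ.succ (baseForm₀ K n h) =
      (h : MvPolynomial (Fin (n + 2 + 1)) K) * X i.succ.succ ^ (h - 1) := by
  unfold baseForm₀
  have h0 : (0 : Fin (n + 2 + 1)) ≠ i.succ.succ := (Fin.succ_ne_zero _).symm
  have h1 : (1 : Fin (n + 2 + 1)) ≠ i.succ.succ := by
    rw [← Fin.succ_zero_eq_one]
    intro h2
    exact (Fin.succ_ne_zero _).symm (Fin.succ_injective _ h2)
  rw [map_add, map_sub, map_sum, Finset.sum_eq_single i, pderiv_pow, pderiv_pow, pderiv_pow,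
    map_add, pderiv_X_self, pderiv_X_of_ne h0, pderiv_X_of_ne h1]
  · ring
  · intro k _ hk
    rw [pderiv_pow, pderiv_X_of_ne (by simpa using hk)]
    ring
  · simp

theorem pderiv_base₀_zero :
    pderiv 0 (baseForm₀ K n h) = (h : MvPolynomial (Fin (n + 2 + 1)) K) * X 0 ^ (h - 1) -
      (h : MvPolynomial (Fin (n + 2 + 1)) K) * (X 0 + X 1) ^ (h - 1) := by
  unfold baseForm₀
  rw [map_add, map_sub, map_sum, Finset.sum_eq_zero, pderiv_pow, pderiv_pow,
    map_add, pderiv_X_self, pderiv_X_of_ne (by simp)]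
  · ring
  · intro k _
    rw [pderiv_pow, pderiv_X_of_ne (Fin.succ_ne_zero _)]
    ring

theorem pderiv_base₀_one :
    pderiv 1 (baseForm₀ K n h) =
      - ((h : MvPolynomial (Fin (n + 2 + 1)) K) * (X 0 + X 1) ^ (h - 1)) := by
  unfold baseForm₀
  rw [map_add, map_sub, map_sum, Finset.sum_eq_zero, pderiv_pow, pderiv_pow,
    map_add, pderiv_X_self, pderiv_X_of_ne (by simp)]
  · ring
  · intro k _
    rw [pderiv_pow, pderiv_X_of_ne]
    · ring
    · rw [← Fin.succ_zero_eq_one]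
      intro h2
      exact (Fin.succ_ne_zero _) (Fin.succ_injective _ h2)

theorem special_smooth [CharZero K] (hd : 2 ≤ d) (hh : 2 ≤ h) (σ : K →+* ℂ)
    (x : Fin (n + 1) → ℂ) (z : Fin (n + 2 + 1) → ℂ) (hx : x ≠ 0) (hz : z ≠ 0) (α β : ℂ)
    (h1 : ∀ i, α * eval₂ σ (Sum.elim x z) (pderiv (Sum.inl i) (totalForm₀ K n d)) = 0)
    (h2 : ∀ j, α * eval₂ σ (Sum.elim x z) (pderiv (Sum.inr j) (totalForm₀ K n d)) +
      β * eval₂ σ z (pderiv j (baseForm₀ K n h)) = 0) : α = 0 ∧ β = 0 := by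
  have hnd : (d : ℂ) ≠ 0 := by exact_mod_cast (by omega : d ≠ 0)
  have hnh : (h : ℂ) ≠ 0 := by exact_mod_cast (by omega : h ≠ 0)
  have hd1 : d - 1 ≠ 0 := by omega
  have hh1 : h - 1 ≠ 0 := by omega
  have low0 : ∀ i : Fin (n + 1), i.succ.succ ≠ (0 : Fin (n + 2 + 1)) := fun i =>
    Fin.succ_ne_zero _
  have low1 : ∀ i : Fin (n + 1), i.succ.succ ≠ (1 : Fin (n + 2 + 1)) := fun i => by
    rw [← Fin.succ_zero_eq_one]
    intro h2
    exact (Fin.succ_ne_zero _) (Fin.succ_injective _ h2)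
  have e1 : ∀ i : Fin (n + 1), α * (z i.succ.succ * ((d : ℂ) * x i ^ (d - 1))) = 0 := by
    intro i
    have h3 := h1 i
    rw [pderiv_inl_total₀] at h3
    simpa [eval₂_mul, eval₂_pow] using h3
  have e2 : ∀ i : Fin (n + 1), α * x i ^ d + β * ((h : ℂ) * z i.succ.succ ^ (h - 1)) = 0 := by
    intro i
    have h3 := h2 i.succ.succ
    rw [pderiv_inr_total₀, pderiv_base₀] at h3
    simpa [eval₂_mul, eval₂_pow] using h3
  have e3 : β * ((h : ℂ) * z 0 ^ (h - 1) - (h : ℂ) * (z 0 + z 1) ^ (h - 1)) = 0 := by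
    have h3 := h2 0
    rw [pderiv_inr_total₀_low n d 0 low0, pderiv_base₀_zero] at h3
    simpa [eval₂_mul, eval₂_pow, eval₂_sub] using h3
  have e4 : β * ((h : ℂ) * (z 0 + z 1) ^ (h - 1)) = 0 := by
    have h3 := h2 1
    rw [pderiv_inr_total₀_low n d 1 low1, pderiv_base₀_one] at h3
    simpa [eval₂_mul, eval₂_pow, eval₂_sub] using h3
  have hβ : β = 0 := by
    by_contra hβ
    have e5 : (z 0 + z 1) ^ (h - 1) = 0 := by
      rcases mul_eq_zero.1 e4 with h3 | h3
      · exact absurd h3 hβ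
      · rcases mul_eq_zero.1 h3 with h4 | h4
        · exact absurd h4 hnh
        · exact h4
    have e6 : z 0 ^ (h - 1) = 0 := by
      rw [e5] at e3
      rcases mul_eq_zero.1 e3 with h3 | h3
      · exact absurd h3 hβ
      · rw [mul_zero, sub_zero] at h3
        rcases mul_eq_zero.1 h3 with h4 | h4
        · exact absurd h4 hnh
        · exact h4
    have e7 : z 0 = 0 := pow_eq_zero_iff hh1 |>.1 e6
    have e8 : z 1 = 0 := by
      have := pow_eq_zero_iff hh1 |>.1 e5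
      rw [e7, zero_add] at this
      exact this
    have hzi : ∃ i : Fin (n + 1), z i.succ.succ ≠ 0 := by
      by_contra hno
      push Not at hno
      apply hz
      funext j
      refine Fin.cases e7 (fun j => ?_) j
      refine Fin.cases ?_ (fun j => ?_) j
      · rw [Fin.succ_zero_eq_one]
        exact e8
      · exact hno j
    by_cases hα : α = 0
    · obtain ⟨i, hi⟩ := hzi
      have h3 := e2 i
      rw [hα, zero_mul, zero_add] at h3
      exact (mul_ne_zero hβ (mul_ne_zero hnh (pow_ne_zero _ hi))) h3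
    · have hkey : ∀ i, x i = 0 := by
        intro i
        have h3 : z i.succ.succ * ((d : ℂ) * x i ^ (d - 1)) = 0 :=
          (mul_eq_zero.1 (e1 i)).resolve_left hα
        rcases mul_eq_zero.1 h3 with h4 | h4
        · have h5 := e2 i
          rw [h4, zero_pow hh1, mul_zero, mul_zero, add_zero] at h5
          exact pow_eq_zero_iff (by omega) |>.1 ((mul_eq_zero.1 h5).resolve_left hα)
        · exact pow_eq_zero_iff hd1 |>.1 ((mul_eq_zero.1 h4).resolve_left hnd)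
      exact hx (funext hkey)
  refine ⟨?_, hβ⟩
  by_contra hα
  apply hx
  funext i
  have h3 := e2 i
  rw [hβ, zero_mul, add_zero] at h3
  exact pow_eq_zero_iff (by omega) |>.1 ((mul_eq_zero.1 h3).resolve_left hα)

end special

theorem exists_eps {K : Type*} [Field K] [NumberField K] (n d h q B : ℕ) (hd : 2 ≤ d)
    (hh : 2 ≤ h) (W : MvPolynomial (Fin (n + 1)) K) (hW : W.IsHomogeneous d)
    (s : Fin (q + 1) → ℚ) (t r : Fin B → ℚ) :
    ∃ ε : ℚ, ε ≠ 0 ∧ IsSmoothCI (totalForm K n d B W t r ε) (baseForm K n h q s ε) := by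
  obtain ⟨ε, h1, h2⟩ := smooth_of_small (totalForm₀ K n d) (totalForm' K n d B W t r)
    (baseForm₀ K n h) (baseForm' K n h q s) (by omega : 1 ≤ d) (totalForm₀_bihomogeneous n d)
    (totalForm'_bihomogeneous n d B W hW t r) (baseForm₀_homogeneous n h)
    (baseForm'_homogeneous n h q s)
    (fun σ x z hx hz α β h1 h2 => special_smooth n d h hd hh σ x z hx hz α β h1 h2)
  exact ⟨ε, h1, h2⟩

end Pool.Agent.Work.MP_f82ddf_nt
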