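import Pool.Agent.Work.MP_f82ddf_nt.Red.Curve
import Pool.Agent.Work.MP_f82ddf_nt.Red.Total
import Pool.Agent.Work.MP_f82ddf_nt.Red.Family
import Pool.Agent.Work.MP_f82ddf_nt.Brody.Brody

/-!
# Entire curves in the total space
-/

open MvPolynomial Topology Filter Set
open scoped LinearAlgebra.Projectivization ENNReal

namespace Pool.Agent.Work.MP_f82ddf_nt

/-- Without nonconstant entire curves a projective variety is hyperbolic. -/
theorem hyperbolic_of_const {K : Type*} [Field K] {n : ℕ} {S : Set (MvPolynomial (Fin (n + 1)) K)}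
    (hS : ∀ F ∈ S, ∃ d, F.IsHomogeneous d) (σ : K →+* ℂ)
    (h : ∀ f : ℂ → PSpace ℂ n, HolomorphicOn f univ → (∀ z, f z ∈ complexPoints S σ) →
      ∀ z w, f z = f w) : KobayashiHyperbolic (complexPoints S σ) := by
  by_contra hcon
  obtain ⟨f, hf, hX, a, b, hab⟩ := exists_entire_curve hS σ hcon
  exact hab (h f hf hX a b)

theorem hyperbolic_iff_const {K : Type*} [Field K] {n : ℕ}
    {S : Set (MvPolynomial (Fin (n + 1)) K)}
    (hS : ∀ F ∈ S, ∃ d, F.IsHomogeneous d) (σ : K →+* ℂ) :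
    KobayashiHyperbolic (complexPoints S σ) ↔ ∀ f : ℂ → PSpace ℂ n, HolomorphicOn f univ →
      (∀ z, f z ∈ complexPoints S σ) → ∀ z w, f z = f w := by
  refine ⟨fun h f hf hX z w => ?_, hyperbolic_of_const hS σ⟩
  by_contra hne
  exact not_kobayashi f hf hX z w hne h

section forms

variable {K : Type*} [Field K] [CharZero K] {n : ℕ}

/-- `W = ∑_j (∑_s x_{i(s)} m_{c(s)}(x) τ_j^s)^k`. -/
noncomputable def wForm {C D N : ℕ} (m : Fin C → MvPolynomial (Fin (n + 1)) K)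
    (ρ : Fin (D + 1) ≃ Fin C × Fin (n + 1)) (τ : Fin N → ℚ) (k : ℕ) :
    MvPolynomial (Fin (n + 1)) K :=
  ∑ j, (∑ s, (X (ρ s).2 * m (ρ s).1) * MvPolynomial.C ((τ j : K) ^ (s : ℕ))) ^ k

/-- The forms whose powers are added up. -/
noncomputable def pForm {C D N : ℕ} (m : Fin C → MvPolynomial (Fin (n + 1)) K)
    (ρ : Fin (D + 1) ≃ Fin C × Fin (n + 1)) (τ : Fin N → ℚ) (j : Fin N) :
    MvPolynomial (Fin (n + 1)) K :=
  ∑ s, (X (ρ s).2 * m (ρ s).1) * MvPolynomial.C ((τ j : K) ^ (s : ℕ))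

omit [CharZero K] in
theorem pForm_homogeneous_aux {C D e : ℕ} (m : Fin C → MvPolynomial (Fin (n + 1)) K)
    (hm : ∀ c, (m c).IsHomogeneous e) (ρ : Fin (D + 1) ≃ Fin C × Fin (n + 1))
    (a : Fin (D + 1) → K) :
    (∑ s, (X (ρ s).2 * m (ρ s).1) * MvPolynomial.C (a s)).IsHomogeneous (e + 1) := by
  apply IsHomogeneous.sum
  intro s _
  have h1 := ((isHomogeneous_X K (ρ s).2).mul (hm (ρ s).1)).mul
    (isHomogeneous_C (Fin (n + 1)) (a s))
  have h2 : 1 + e + 0 = e + 1 := by omega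
  rwa [h2] at h1

theorem pForm_homogeneous {C D N e : ℕ} (m : Fin C → MvPolynomial (Fin (n + 1)) K)
    (hm : ∀ c, (m c).IsHomogeneous e) (ρ : Fin (D + 1) ≃ Fin C × Fin (n + 1)) (τ : Fin N → ℚ)
    (j : Fin N) : (pForm m ρ τ j).IsHomogeneous (e + 1) := by
  apply IsHomogeneous.sum
  intro s _
  have h1 := ((isHomogeneous_X K (ρ s).2).mul (hm (ρ s).1)).mul
    (isHomogeneous_C (Fin (n + 1)) ((τ j : K) ^ (s : ℕ)))
  have h2 : 1 + e + 0 = e + 1 := by omega
  rwa [h2] at h1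

theorem wForm_homogeneous {C D N e : ℕ} (m : Fin C → MvPolynomial (Fin (n + 1)) K)
    (hm : ∀ c, (m c).IsHomogeneous e) (ρ : Fin (D + 1) ≃ Fin C × Fin (n + 1)) (τ : Fin N → ℚ)
    (k : ℕ) : (wForm m ρ τ k).IsHomogeneous ((e + 1) * k) := by
  apply IsHomogeneous.sum
  intro j _
  exact (pForm_homogeneous m hm ρ τ j).pow k

theorem eval₂_pForm {C D N : ℕ} (m : Fin C → MvPolynomial (Fin (n + 1)) K)
    (ρ : Fin (D + 1) ≃ Fin C × Fin (n + 1)) (τ : Fin N → ℚ) (j : Fin N) {R : Type*} [Field R]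
    [CharZero R] (σ : K →+* R) (x : Fin (n + 1) → R) :
    eval₂ σ x (pForm m ρ τ j) =
      ∑ s, (x (ρ s).2 * eval₂ σ x (m (ρ s).1)) * (τ j : R) ^ (s : ℕ) := by
  unfold pForm
  rw [eval₂_sum]
  refine Finset.sum_congr rfl fun s _ => ?_
  rw [eval₂_mul, eval₂_mul, eval₂_X, eval₂_C, map_pow, map_ratCast]

theorem eval₂_wForm {C D N : ℕ} (m : Fin C → MvPolynomial (Fin (n + 1)) K)
    (ρ : Fin (D + 1) ≃ Fin C × Fin (n + 1)) (τ : Fin N → ℚ) (k : ℕ) {R : Type*} [Field R]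
    [CharZero R] (σ : K →+* R) (x : Fin (n + 1) → R) :
    eval₂ σ x (wForm m ρ τ k) =
      ∑ j, (∑ s, (x (ρ s).2 * eval₂ σ x (m (ρ s).1)) * (τ j : R) ^ (s : ℕ)) ^ k := by
  unfold wForm
  rw [eval₂_sum]
  refine Finset.sum_congr rfl fun j _ => ?_
  rw [eval₂_pow]
  congr 1
  exact eval₂_pForm m ρ τ j σ x

end forms

section curves

variable {K : Type*} [Field K] [CharZero K] {n : ℕ}

theorem eval_fin_cases {m : ℕ} {x : Fin (m + 1) → ℂ} (c : ℂ) (i : Fin (m + 1)) :
    eval x (MvPolynomial.C c * X i) = c * x i := by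
  rw [eval_mul, eval_C, eval_X]

/-- The base has only constant entire curves. -/
theorem base_curve {h q : ℕ} (s : Fin (q + 1) → ℚ) (hs : GenPts (n + 2) (q + 1) s)
    (hq : n + 2 + (n + 3) + 3 * ((n + 2 + 1) * (n + 2 + 1)) ≤ q)
    (hh : (q + 1 + (n + 3)) * (q + 1 + (n + 3) - 2) < h) {ε : ℚ} (hε : ε ≠ 0) (σ : K →+* ℂ)
    {g : ℂ → PSpace ℂ (n + 2)} (hg : HolomorphicOn g univ)
    (hH : ∀ z, eval₂ σ (g z).rep (baseForm K n h q s ε) = 0) (z w : ℂ) : g z = g w := by
  classical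
  have hh0 : h ≠ 0 := by omega
  obtain ⟨ω, hω⟩ := IsAlgClosed.exists_pow_nat_eq (-1 : ℂ) (Nat.pos_of_ne_zero hh0)
  let P : Fin (n + 2 + 1) → MvPolynomial (Fin (n + 2 + 1)) ℂ :=
    fun i => if i = 1 then MvPolynomial.C ω * (X 0 + X 1) else X i
  have hP : ∀ i, (P i).IsHomogeneous 1 := by
    intro i
    show (if i = 1 then MvPolynomial.C ω * (X 0 + X 1) else X i : MvPolynomial _ ℂ).IsHomogeneous 1
    split_ifs
    · have h1 := (isHomogeneous_C (Fin (n + 2 + 1)) ω).mul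
        ((isHomogeneous_X ℂ (0 : Fin (n + 2 + 1))).add (isHomogeneous_X ℂ (1 : Fin (n + 2 + 1))))
      simpa using h1
    · exact isHomogeneous_X _ _
  have hP0 : P 0 = X 0 := if_neg (by simp)
  have hP1 : P (Fin.succ 0) = MvPolynomial.C ω * (X 0 + X 1) := if_pos rfl
  have hP2 : ∀ i : Fin (n + 1), P i.succ.succ = X i.succ.succ := fun i => if_neg (by
    intro h
    have h1 : (i : ℕ) + 1 + 1 = 1 := congrArg Fin.val h
    omega)
  refine curve_const (e := 1) (k := h) le_rfl s hs hh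
    (fun j => Fin.lastCases (-(ε * q : ℂ)) (fun _ => (ε : ℂ)) j) ?_ P hP hg ?_ z w
  · have h1 : (Finset.univ.image (Fin.castSucc : Fin q → Fin (q + 1))) ⊆
        Finset.univ.filter fun j => (Fin.lastCases (-(ε * q : ℂ)) (fun _ => (ε : ℂ)) j : ℂ) ≠ 0 := by
      intro j hj
      obtain ⟨i, -, rfl⟩ := Finset.mem_image.1 hj
      simp only [Finset.mem_filter, Finset.mem_univ, true_and, Fin.lastCases_castSucc]
      exact_mod_cast hε
    have h2 := Finset.card_le_card h1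
    rw [Finset.card_image_of_injective _ (Fin.castSucc_injective q), Finset.card_univ,
      Fintype.card_fin] at h2
    omega
  · intro z
    have h3 : ∑ i, eval (g z).rep (P i) ^ h = (g z).rep 0 ^ h - ((g z).rep 0 + (g z).rep 1) ^ h +
        ∑ i : Fin (n + 1), (g z).rep i.succ.succ ^ h := by
      rw [Fin.sum_univ_succ, Fin.sum_univ_succ, hP0, hP1]
      simp only [hP2, eval_X, eval_mul, eval_C, eval_add, mul_pow, hω]
      ring
    rw [h3, ← hH z, eval₂_baseForm, Fin.sum_univ_castSucc]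
    simp only [Fin.lastCases_last, Fin.lastCases_castSucc, one_mul]
    rw [← Finset.mul_sum]
    ring

/-- The fibres of the total space over the points different from `(1, 0, ..., 0)` have only
constant entire curves. -/
theorem total_curve {C D N B e k : ℕ} (m : Fin C → MvPolynomial (Fin (n + 1)) K)
    (hm : ∀ c, (m c).IsHomogeneous e) (ρ : Fin (D + 1) ≃ Fin C × Fin (n + 1)) (τ : Fin N → ℚ)
    (t r : Fin B → ℚ) (ht : GenPts n B t) (hr : Function.Injective r)
    (hB : n + 1 + (n + (n + 1 + N) + 3 * ((n + 1) * (n + 1))) ≤ B)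
    (hk : (B + (n + 1 + N)) * (B + (n + 1 + N) - 2) < k) {ε : ℚ} (hε : ε ≠ 0) (σ : K →+* ℂ)
    (ζ : Fin (n + 2 + 1) → ℂ) (hζ : ∃ i : Fin (n + 2), ζ i.succ ≠ 0)
    {f : ℂ → PSpace ℂ n} (hf : HolomorphicOn f univ)
    (hF : ∀ z, eval₂ σ (Sum.elim (f z).rep ζ)
      (totalForm K n ((e + 1) * k) B (wForm m ρ τ k) t r ε) = 0) (z w : ℂ) : f z = f w := by
  classical
  have hk0 : 0 < k := by omega
  choose α hα using fun i : Fin (n + 1) => IsAlgClosed.exists_pow_nat_eq (ζ i.succ.succ) hk0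
  obtain ⟨β, hβ⟩ := IsAlgClosed.exists_pow_nat_eq ((ε : ℂ) * ζ 0) hk0
  let P : Fin (n + 1 + N) → MvPolynomial (Fin (n + 1)) ℂ := Fin.addCases
    (fun i => MvPolynomial.C (α i) * X i ^ (e + 1))
    (fun j => MvPolynomial.C β * map σ (pForm m ρ τ j))
  have hP : ∀ i, (P i).IsHomogeneous (e + 1) := by
    intro i
    refine Fin.addCases (fun i => ?_) (fun j => ?_) i
    · show (Fin.addCases _ _ (Fin.castAdd N i) : MvPolynomial (Fin (n + 1)) ℂ).IsHomogeneous _
      rw [Fin.addCases_left]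
      have h1 := (isHomogeneous_C (Fin (n + 1)) (α i)).mul (isHomogeneous_X_pow (R := ℂ) i (e + 1))
      rwa [zero_add] at h1
    · show (Fin.addCases _ _ (Fin.natAdd (n + 1) j) :
        MvPolynomial (Fin (n + 1)) ℂ).IsHomogeneous _
      rw [Fin.addCases_right]
      have h1 := (isHomogeneous_C (Fin (n + 1)) β).mul
        ((pForm_homogeneous m hm ρ τ j).map σ)
      rwa [zero_add] at h1
  refine curve_const (e := e + 1) (k := k) (by omega) t ht hk
    (fun j => (ε : ℂ) * ∑ i : Fin (n + 2), ζ i.succ * (r j : ℂ) ^ (i : ℕ)) ?_ P hP hf ?_ z w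
  · -- few of the coefficients vanish
    have h1 : (Finset.univ.filter fun j => ∑ i : Fin (n + 2), ζ i.succ * (r j : ℂ) ^ (i : ℕ) = 0).card
        ≤ n + 1 := by
      refine card_zeros_le (n := n + 1) r hr (fun i => ζ i.succ) ?_ _ ?_
      · intro h0
        obtain ⟨i, hi⟩ := hζ
        exact hi (congrFun h0 i)
      · intro j hj
        exact (Finset.mem_filter.1 hj).2
    have h2 : (Finset.univ : Finset (Fin B)) ⊆
        (Finset.univ.filter fun j => (ε : ℂ) * ∑ i : Fin (n + 2), ζ i.succ * (r j : ℂ) ^ (i : ℕ) ≠ 0) ∪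
        (Finset.univ.filter fun j => ∑ i : Fin (n + 2), ζ i.succ * (r j : ℂ) ^ (i : ℕ) = 0) := by
      intro j _
      simp only [Finset.mem_union, Finset.mem_filter, Finset.mem_univ, true_and]
      by_cases h : ∑ i : Fin (n + 2), ζ i.succ * (r j : ℂ) ^ (i : ℕ) = 0
      · exact Or.inr h
      · exact Or.inl (mul_ne_zero (by exact_mod_cast hε) h)
    have h3 := (Finset.card_le_card h2).trans (Finset.card_union_le _ _)
    rw [Finset.card_univ, Fintype.card_fin] at h3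
    omega
  · intro z
    have h3 : ∑ i, eval (f z).rep (P i) ^ k =
        ∑ i : Fin (n + 1), ζ i.succ.succ * (f z).rep i ^ ((e + 1) * k) +
        (ε : ℂ) * ζ 0 * eval₂ σ (f z).rep (wForm m ρ τ k) := by
      rw [Fin.sum_univ_add, eval₂_wForm, Finset.mul_sum]
      congr 1
      · refine Finset.sum_congr rfl fun i _ => ?_
        show eval (f z).rep (Fin.addCases _ _ (Fin.castAdd N i)) ^ k = _
        rw [Fin.addCases_left, eval_mul, eval_C, eval_pow, eval_X, mul_pow, hα, ← pow_mul]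
      · refine Finset.sum_congr rfl fun j _ => ?_
        show eval (f z).rep (Fin.addCases _ _ (Fin.natAdd (n + 1) j)) ^ k = _
        rw [Fin.addCases_right, eval_mul, eval_C, eval_map, mul_pow, hβ, eval₂_pForm]
    rw [h3, ← hF z, eval₂_totalForm]
    simp only [mul_add, Finset.mul_sum, Finset.sum_mul]
    ring_nf

/-- Nonconstant entire curves in `W = 0` lie in the base locus. -/
theorem w_curve {C D N e k : ℕ} (m : Fin C → MvPolynomial (Fin (n + 1)) K)
    (hm : ∀ c, (m c).IsHomogeneous e) (ρ : Fin (D + 1) ≃ Fin C × Fin (n + 1)) (τ : Fin N → ℚ)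
    (hτ : GenPts D N τ) (hN : D + 3 * ((D + 1) * (D + 1)) ≤ N) (hk : N * (N - 2) < k)
    (σ : K →+* ℂ) {f : ℂ → PSpace ℂ n} (hf : HolomorphicOn f univ)
    (hW : ∀ z, eval₂ σ (f z).rep (wForm m ρ τ k) = 0) (hne : ∃ z w, f z ≠ f w) (c : Fin C)
    (z : ℂ) : eval₂ σ (f z).rep (m c) = 0 := by
  have h1 := curve_base τ hτ hN hk ρ (fun c => map σ (m c)) (fun c => (hm c).map σ) hf (by
    intro z
    rw [← hW z, eval₂_wForm]
    simp only [eval_map]) hne c z
  rwa [eval_map] at h1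

end curves

end Pool.Agent.Work.MP_f82ddf_nt
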